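import Mathlib

/-!
# Steiner symmetrization and the volume of the polar body (MP_26fc11_gt)

Proof idea.  Let `L = conv (± v_j)`, `v_j` running through `√n e_i` and the rows of a (symmetric)
Walsh-Hadamard matrix, `n = 2^d`, and `K = L*`.  For a unit vector `u` put
`B^u = conv {(v, ± ⟪v,u⟫)} ⊆ ℝⁿ × ℝ`.  The section of `B^u` over `u^⊥` lies in the polar of the
Steiner symmetral of `K`.  Averaging over the isometries `X_a Z_b`, `X_a Z_b H`, which permute the
vertices, `vol (B^u ∩ {|τ| ≤ 16 m}) ≥ m vol L`, `m` the average of `|⟪v_j,u⟫|`, `m ≥ n^{-1/4}` by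
the uncertainty principle.  The moments of the weights in a convex representation of a random
point of `L` are controlled by the trivial inclusion `z - t v_j ∈ (1-t) L` if the weight of `v_j`
is at least `t`; so `E ⟪z,u⟫² ≤ 32/n`.  Brunn-Minkowski shows that the sections of
`B^u ∩ {|τ| ≤ 16 m}` parallel to `u^⊥` are largest at `0`, and Chebyshev finishes:
`vol ((St_u K)*) ≥ c n^{1/4} vol (K*)` for every `u`.
-/

set_option autoImplicit false
open MeasureTheory Set
open scoped ENNReal

namespace Pool.Agent.Helper361.SteinerPolar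

/-- one-dimensional Brunn-Minkowski, compact case -/
theorem bm_compact {K L C : Set ℝ} (hK : IsCompact K) (hL : IsCompact L)
    (hK' : K.Nonempty) (hL' : L.Nonempty)
    (hC : ∀ x ∈ K, ∀ y ∈ L, (x + y) / 2 ∈ C) :
    volume K + volume L ≤ 2 * volume C := by
  obtain ⟨a, ha, hamax⟩ := hK.exists_isMaxOn hK' continuousOn_id
  obtain ⟨b, hb, hbmin⟩ := hL.exists_isMinOn hL' continuousOn_id
  have hamax' : ∀ x ∈ K, x ≤ a := fun x hx => hamax hx
  have hbmin' : ∀ y ∈ L, b ≤ y := fun y hy => hbmin hy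
  set S1 : Set ℝ := (fun x => (x + b) / 2) '' K with hS1
  set S2 : Set ℝ := (fun y => (a + y) / 2) '' L with hS2
  have hS1c : IsCompact S1 := hK.image (by fun_prop)
  have hS2c : IsCompact S2 := hL.image (by fun_prop)
  have h1 : S1 ∪ S2 ⊆ C := by
    rintro z (⟨x, hx, rfl⟩ | ⟨y, hy, rfl⟩)
    · exact hC x hx b hb
    · exact hC a ha y hy
  have hint : volume (S1 ∩ S2) = 0 := by
    refine measure_mono_null (t := {(a + b) / 2}) ?_ (by simp)
    rintro z ⟨⟨x, hx, hxz⟩, ⟨y, hy, hyz⟩⟩
    simp only at hxz hyz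
    have e1 := hamax' x hx
    have e2 := hbmin' y hy
    simp only [mem_singleton_iff]
    linarith
  have hv1 : volume S1 = ENNReal.ofReal (1 / 2) * volume K := by
    have : S1 = (fun x => x + b / 2) '' ((fun x => (1 / 2 : ℝ) * x) '' K) := by
      rw [hS1, image_image]
      congr 1
      ext x; ring
    rw [this]
    have e1 : volume ((fun x : ℝ => x + b / 2) '' ((fun x => (1 / 2 : ℝ) * x) '' K))
        = volume ((fun x => (1 / 2 : ℝ) * x) '' K) := by
      simp
    rw [e1]
    have e2 := Measure.addHaar_image_homothety (volume : Measure ℝ) (0 : ℝ) (1 / 2 : ℝ) K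
    have e3 : (fun x => (1 / 2 : ℝ) * x) '' K = (AffineMap.homothety (0 : ℝ) (1 / 2 : ℝ)) '' K := by
      congr 1
      ext x
      simp [AffineMap.homothety_apply]
    rw [e3, e2]
    norm_num
  have hv2 : volume S2 = ENNReal.ofReal (1 / 2) * volume L := by
    have : S2 = (fun x => x + a / 2) '' ((fun x => (1 / 2 : ℝ) * x) '' L) := by
      rw [hS2, image_image]
      congr 1
      ext x; ring
    rw [this]
    have e1 : volume ((fun x : ℝ => x + a / 2) '' ((fun x => (1 / 2 : ℝ) * x) '' L))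
        = volume ((fun x => (1 / 2 : ℝ) * x) '' L) := by
      simp
    rw [e1]
    have e2 := Measure.addHaar_image_homothety (volume : Measure ℝ) (0 : ℝ) (1 / 2 : ℝ) L
    have e3 : (fun x => (1 / 2 : ℝ) * x) '' L = (AffineMap.homothety (0 : ℝ) (1 / 2 : ℝ)) '' L := by
      congr 1
      ext x
      simp [AffineMap.homothety_apply]
    rw [e3, e2]
    norm_num
  have hu : volume (S1 ∪ S2) + volume (S1 ∩ S2) = volume S1 + volume S2 :=
    measure_union_add_inter S1 hS2c.measurableSet
  rw [hint, add_zero] at hu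
  have h2 : volume S1 + volume S2 ≤ volume C := by
    rw [← hu]; exact measure_mono h1
  rw [hv1, hv2] at h2
  have h3 : (2 : ℝ≥0∞) * (ENNReal.ofReal (1 / 2)) = 1 := by
    rw [show (2 : ℝ≥0∞) = ENNReal.ofReal 2 by simp, ← ENNReal.ofReal_mul (by norm_num)]
    norm_num
  calc volume K + volume L = 2 * (ENNReal.ofReal (1 / 2) * volume K + ENNReal.ofReal (1 / 2) * volume L) := by
        rw [mul_add, ← mul_assoc, ← mul_assoc, h3, one_mul, one_mul]
    _ ≤ 2 * volume C := by gcongr

theorem bm {A B C : Set ℝ} (hA : MeasurableSet A) (hB : MeasurableSet B)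
    (hA' : A.Nonempty) (hB' : B.Nonempty)
    (hC : ∀ x ∈ A, ∀ y ∈ B, (x + y) / 2 ∈ C) :
    volume A + volume B ≤ 2 * volume C := by
  obtain ⟨a, ha⟩ := hA'
  obtain ⟨b, hb⟩ := hB'
  have key : ∀ K, K ⊆ A → IsCompact K → ∀ L, L ⊆ B → IsCompact L →
      volume K + volume L ≤ 2 * volume C := by
    intro K hKA hK L hLB hL
    have h := bm_compact (K := insert a K) (L := insert b L) (C := C) (hK.insert a) (hL.insert b)
      (insert_nonempty _ _) (insert_nonempty _ _) (fun x hx y hy => hC x (insert_subset ha hKA hx) y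
        (insert_subset hb hLB hy))
    refine le_trans ?_ h
    gcongr
    · exact subset_insert _ _
    · exact subset_insert _ _
  rw [hA.measure_eq_iSup_isCompact, hB.measure_eq_iSup_isCompact]
  simp only [iSup_and']
  refine ENNReal.biSup_add_biSup_le' ⟨∅, empty_subset _, isCompact_empty⟩
    ⟨∅, empty_subset _, isCompact_empty⟩ ?_
  rintro K ⟨hKA, hK⟩ L ⟨hLB, hL⟩
  exact key K hKA hK L hLB hL

/-- one-dimensional Prekopa-Leindler, normalised case -/
theorem pl1_aux (f g h : ℝ → ℝ) (hf : Measurable f) (hg : Measurable g) (hh : Measurable h)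
    (f0 : ∀ x, 0 ≤ f x) (g0 : ∀ x, 0 ≤ g x) (h0 : ∀ x, 0 ≤ h x)
    (f1 : ∀ x, f x ≤ 1) (g1 : ∀ x, g x ≤ 1)
    (hfs : ∀ t, t < 1 → ∃ x, t < f x) (hgs : ∀ t, t < 1 → ∃ x, t < g x)
    (H : ∀ x y, f x * g y ≤ h ((x + y) / 2) ^ 2) :
    (∫⁻ x, ENNReal.ofReal (f x)) + (∫⁻ x, ENNReal.ofReal (g x))
      ≤ 2 * ∫⁻ x, ENNReal.ofReal (h x) := by
  rw [lintegral_eq_lintegral_meas_lt volume (Filter.Eventually.of_forall f0) hf.aemeasurable,
    lintegral_eq_lintegral_meas_lt volume (Filter.Eventually.of_forall g0) hg.aemeasurable,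
    lintegral_eq_lintegral_meas_lt volume (Filter.Eventually.of_forall h0) hh.aemeasurable]
  have hm : ∀ k : ℝ → ℝ, Measurable (fun t : ℝ => volume {a : ℝ | t < k a}) := fun k =>
    (Antitone.measurable (fun s t hst => measure_mono (fun a (ha : t < k a) =>
      show s < k a from lt_of_le_of_lt hst ha)))
  rw [← lintegral_add_left (hm f), ← lintegral_const_mul _ (hm h)]
  refine setLIntegral_mono' measurableSet_Ioi ?_
  intro t ht
  have ht0 : 0 < t := ht
  by_cases ht1 : t < 1
  · refine bm (hf measurableSet_Ioi) (hg measurableSet_Ioi) (hfs t ht1) (hgs t ht1) ?_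
    intro x hx y hy
    have hx' : t < f x := hx
    have hy' : t < g y := hy
    have hxy := H x y
    have h2 : t ^ 2 < h ((x + y) / 2) ^ 2 := by
      calc t ^ 2 = t * t := by ring
        _ < f x * g y := by
          apply mul_lt_mul'' hx' hy' ht0.le ht0.le
        _ ≤ _ := hxy
    exact lt_of_pow_lt_pow_left₀ 2 (h0 _) h2
  · push Not at ht1
    have e1 : {a : ℝ | t < f a} = ∅ := by
      ext a; simp; linarith [f1 a]
    have e2 : {a : ℝ | t < g a} = ∅ := by
      ext a; simp; linarith [g1 a]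
    simp [e1, e2]

theorem pl1_bdd (F G H : ℝ → ℝ≥0∞) (hF : Measurable F) (hG : Measurable G) (hH : Measurable H)
    (k : ℝ≥0∞) (hk : k ≠ ∞) (Fk : ∀ x, F x ≤ k) (Gk : ∀ x, G x ≤ k)
    (HH : ∀ x y, F x * G y ≤ H ((x + y) / 2) ^ 2) :
    (∫⁻ x, F x) * (∫⁻ x, G x) ≤ (∫⁻ x, H x) ^ 2 := by
  by_cases hM0 : (⨆ x, F x) = 0
  · have : ∀ x, F x = 0 := by simpa using hM0
    simp [this]
  by_cases hN0 : (⨆ x, G x) = 0
  · have : ∀ x, G x = 0 := by simpa using hN0
    simp [this]
  set M := ⨆ x, F x with hM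
  set N := ⨆ x, G x with hN
  have hMk : M ≤ k := iSup_le Fk
  have hNk : N ≤ k := iSup_le Gk
  have hMt : M ≠ ∞ := ne_top_of_le_ne_top hk hMk
  have hNt : N ≠ ∞ := ne_top_of_le_ne_top hk hNk
  by_cases hC : (∫⁻ x, H x) = ∞
  · rw [hC]; simp
  set m := M.toReal with hm
  set n := N.toReal with hn
  have mpos : 0 < m := ENNReal.toReal_pos hM0 hMt
  have npos : 0 < n := ENNReal.toReal_pos hN0 hNt
  have hFt : ∀ x, F x ≠ ∞ := fun x => ne_top_of_le_ne_top hk (Fk x)
  have hGt : ∀ x, G x ≠ ∞ := fun x => ne_top_of_le_ne_top hk (Gk x)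
  have hmn : 0 < Real.sqrt (m * n) := Real.sqrt_pos.mpr (by positivity)
  set f : ℝ → ℝ := fun x => m⁻¹ * (F x).toReal with hf
  set g : ℝ → ℝ := fun x => n⁻¹ * (G x).toReal with hg
  set h' : ℝ → ℝ≥0∞ := fun x => min (ENNReal.ofReal (Real.sqrt (m * n))⁻¹ * H x) 1 with hh'
  set h : ℝ → ℝ := fun x => (h' x).toReal with hh
  have h't : ∀ x, h' x ≠ ∞ := fun x => ne_top_of_le_ne_top ENNReal.one_ne_top (min_le_right _ _)
  have f0 : ∀ x, 0 ≤ f x := fun x => by positivity
  have g0 : ∀ x, 0 ≤ g x := fun x => by positivity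
  have h0 : ∀ x, 0 ≤ h x := fun x => ENNReal.toReal_nonneg
  have FM : ∀ x, (F x).toReal ≤ m := fun x => ENNReal.toReal_mono hMt (le_iSup F x)
  have GN : ∀ x, (G x).toReal ≤ n := fun x => ENNReal.toReal_mono hNt (le_iSup G x)
  have f1 : ∀ x, f x ≤ 1 := fun x => by
    have := FM x
    simp only [hf]
    rw [inv_mul_le_iff₀ mpos]; linarith
  have g1 : ∀ x, g x ≤ 1 := fun x => by
    have := GN x
    simp only [hg]
    rw [inv_mul_le_iff₀ npos]; linarith
  have hfs : ∀ t, t < 1 → ∃ x, t < f x := by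
    intro t ht
    by_cases ht0 : t < 0
    · exact ⟨0, lt_of_lt_of_le ht0 (f0 0)⟩
    push Not at ht0
    have h1 : ENNReal.ofReal (t * m) < M := by
      rw [ENNReal.ofReal_lt_iff_lt_toReal (by positivity) hMt]
      nlinarith
    obtain ⟨x, hx⟩ := lt_iSup_iff.mp h1
    refine ⟨x, ?_⟩
    rw [ENNReal.ofReal_lt_iff_lt_toReal (by positivity) (hFt x)] at hx
    simp only [hf]
    rw [lt_inv_mul_iff₀ mpos]; linarith
  have hgs : ∀ t, t < 1 → ∃ x, t < g x := by
    intro t ht
    by_cases ht0 : t < 0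
    · exact ⟨0, lt_of_lt_of_le ht0 (g0 0)⟩
    push Not at ht0
    have h1 : ENNReal.ofReal (t * n) < N := by
      rw [ENNReal.ofReal_lt_iff_lt_toReal (by positivity) hNt]
      nlinarith
    obtain ⟨x, hx⟩ := lt_iSup_iff.mp h1
    refine ⟨x, ?_⟩
    rw [ENNReal.ofReal_lt_iff_lt_toReal (by positivity) (hGt x)] at hx
    simp only [hg]
    rw [lt_inv_mul_iff₀ npos]; linarith
  have H1 : ∀ x y, f x * g y ≤ h ((x + y) / 2) ^ 2 := by
    intro x y
    simp only [hh, hh']
    rcases le_total (ENNReal.ofReal (Real.sqrt (m * n))⁻¹ * H ((x + y) / 2)) 1 with hle | hle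
    · rw [min_eq_left hle]
      have hHt : H ((x + y) / 2) ≠ ∞ := by
        intro hinf
        rw [hinf, ENNReal.mul_top (by simpa using hmn)] at hle
        simp at hle
      rw [ENNReal.toReal_mul, ENNReal.toReal_ofReal (by positivity)]
      have h2 := ENNReal.toReal_mono (by finiteness) (HH x y)
      rw [ENNReal.toReal_mul, ENNReal.toReal_pow] at h2
      have h3 : (Real.sqrt (m * n)) ^ 2 = m * n := Real.sq_sqrt (by positivity)
      simp only [hf, hg]
      rw [mul_pow, inv_pow, h3, mul_inv]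
      calc m⁻¹ * (F x).toReal * (n⁻¹ * (G y).toReal)
          = m⁻¹ * n⁻¹ * ((F x).toReal * (G y).toReal) := by ring
        _ ≤ _ := by gcongr
    · rw [min_eq_right hle]
      simp only [ENNReal.toReal_one, one_pow]
      exact mul_le_one₀ (f1 x) (g0 y) (g1 y)
  have hfm : Measurable f := (hF.ennreal_toReal).const_mul _
  have hgm : Measurable g := (hG.ennreal_toReal).const_mul _
  have hhm : Measurable h := ((hH.const_mul _).min measurable_const).ennreal_toReal
  have main := pl1_aux f g h hfm hgm hhm f0 g0 h0 f1 g1 hfs hgs H1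
  have e1 : (∫⁻ x, ENNReal.ofReal (f x)) = ENNReal.ofReal m⁻¹ * ∫⁻ x, F x := by
    rw [← lintegral_const_mul _ hF]
    refine lintegral_congr (fun x => ?_)
    simp only [hf]
    rw [ENNReal.ofReal_mul (by positivity), ENNReal.ofReal_toReal (hFt x)]
  have e2 : (∫⁻ x, ENNReal.ofReal (g x)) = ENNReal.ofReal n⁻¹ * ∫⁻ x, G x := by
    rw [← lintegral_const_mul _ hG]
    refine lintegral_congr (fun x => ?_)
    simp only [hg]
    rw [ENNReal.ofReal_mul (by positivity), ENNReal.ofReal_toReal (hGt x)]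
  have e3 : (∫⁻ x, ENNReal.ofReal (h x)) ≤ ENNReal.ofReal (Real.sqrt (m * n))⁻¹ * ∫⁻ x, H x := by
    rw [← lintegral_const_mul _ hH]
    refine lintegral_mono (fun x => ?_)
    simp only [hh]
    rw [ENNReal.ofReal_toReal (h't x)]
    exact min_le_left _ _
  have main2 : ENNReal.ofReal m⁻¹ * (∫⁻ x, F x) + ENNReal.ofReal n⁻¹ * (∫⁻ x, G x)
      ≤ 2 * (ENNReal.ofReal (Real.sqrt (m * n))⁻¹ * ∫⁻ x, H x) := by
    rw [← e1, ← e2]
    refine main.trans ?_
    gcongr
  set A := ∫⁻ x, F x with hA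
  set B := ∫⁻ x, G x with hB
  set C := ∫⁻ x, H x with hC'
  have hR : 2 * (ENNReal.ofReal (Real.sqrt (m * n))⁻¹ * C) ≠ ∞ := by finiteness
  have hAt : A ≠ ∞ := by
    intro hinf
    rw [hinf, ENNReal.mul_top (by simpa using mpos)] at main2
    simp only [top_add, top_le_iff] at main2
    exact hR main2
  have hBt : B ≠ ∞ := by
    intro hinf
    rw [hinf, ENNReal.mul_top (by simpa using npos)] at main2
    simp only [add_top, top_le_iff] at main2
    exact hR main2
  have main3 := ENNReal.toReal_mono hR main2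
  rw [ENNReal.toReal_add (by finiteness) (by finiteness), ENNReal.toReal_mul, ENNReal.toReal_mul,
    ENNReal.toReal_mul, ENNReal.toReal_mul, ENNReal.toReal_ofReal (by positivity),
    ENNReal.toReal_ofReal (by positivity), ENNReal.toReal_ofReal (by positivity)] at main3
  have hfin : A.toReal * B.toReal ≤ C.toReal ^ 2 := by
    have a0 : 0 ≤ A.toReal := ENNReal.toReal_nonneg
    have b0 : 0 ≤ B.toReal := ENNReal.toReal_nonneg
    have c0 : 0 ≤ C.toReal := ENNReal.toReal_nonneg
    have h3 : (Real.sqrt (m * n)) ^ 2 = m * n := Real.sq_sqrt (by positivity)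
    have hsq : (m⁻¹ * A.toReal + n⁻¹ * B.toReal) ^ 2
        ≤ (2 * ((Real.sqrt (m * n))⁻¹ * C.toReal)) ^ 2 := by
      have h2 : (ENNReal.toReal 2) = 2 := by simp
      rw [h2] at main3
      gcongr
    have hsq2 : (2 * ((Real.sqrt (m * n))⁻¹ * C.toReal)) ^ 2
        = 4 * (m⁻¹ * n⁻¹) * C.toReal ^ 2 := by
      rw [mul_pow, mul_pow, inv_pow, h3, mul_inv]; ring
    have hsq3 : 4 * (m⁻¹ * n⁻¹) * (A.toReal * B.toReal)
        ≤ (m⁻¹ * A.toReal + n⁻¹ * B.toReal) ^ 2 := by
      nlinarith [sq_nonneg (m⁻¹ * A.toReal - n⁻¹ * B.toReal)]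
    have h4 : 4 * (m⁻¹ * n⁻¹) * (A.toReal * B.toReal) ≤ 4 * (m⁻¹ * n⁻¹) * C.toReal ^ 2 := by
      linarith
    have h5 : 0 < 4 * (m⁻¹ * n⁻¹) := by positivity
    exact le_of_mul_le_mul_left h4 h5
  rw [← ENNReal.ofReal_toReal hAt, ← ENNReal.ofReal_toReal hBt, ← ENNReal.ofReal_toReal hC,
    ← ENNReal.ofReal_mul ENNReal.toReal_nonneg, ← ENNReal.ofReal_pow ENNReal.toReal_nonneg]
  exact ENNReal.ofReal_le_ofReal hfin

/-- one-dimensional Prekopa-Leindler inequality -/
theorem pl1 (F G H : ℝ → ℝ≥0∞) (hF : Measurable F) (hG : Measurable G) (hH : Measurable H)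
    (HH : ∀ x y, F x * G y ≤ H ((x + y) / 2) ^ 2) :
    (∫⁻ x, F x) * (∫⁻ x, G x) ≤ (∫⁻ x, H x) ^ 2 := by
  have trunc : ∀ K : ℝ → ℝ≥0∞, Measurable K →
      (∫⁻ x, K x) = ⨆ k : ℕ, ∫⁻ x, min (K x) (k : ℝ≥0∞) := by
    intro K hK
    rw [← lintegral_iSup (fun k => hK.min measurable_const)]
    · refine lintegral_congr (fun x => ?_)
      rw [← inf_iSup_eq, ENNReal.iSup_natCast]
      simp
    · intro k l hkl x
      simp only
      gcongr
  rw [trunc F hF, trunc G hG, ENNReal.iSup_mul]
  refine iSup_le (fun k => ?_)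
  rw [ENNReal.mul_iSup]
  refine iSup_le (fun l => ?_)
  refine pl1_bdd _ _ H (hF.min measurable_const) (hG.min measurable_const) hH
    (max (k : ℝ≥0∞) l) (by finiteness) (fun x => ?_) (fun x => ?_) (fun x y => ?_)
  · exact (min_le_right _ _).trans (le_max_left _ _)
  · exact (min_le_right _ _).trans (le_max_right _ _)
  · refine le_trans ?_ (HH x y)
    gcongr
    · exact min_le_left _ _
    · exact min_le_left _ _


theorem measurable_cons (n : ℕ) :
    Measurable (fun p : ℝ × (Fin n → ℝ) => (Fin.cons p.1 p.2 : Fin (n + 1) → ℝ)) := by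
  rw [measurable_pi_iff]
  intro i
  refine Fin.cases ?_ (fun j => ?_) i
  · simpa using measurable_fst
  · simp only [Fin.cons_succ]
    exact (measurable_pi_apply j).comp measurable_snd

theorem lintegral_succ (n : ℕ) (f : (Fin (n + 1) → ℝ) → ℝ≥0∞) (hf : Measurable f) :
    (∫⁻ s, f s) = ∫⁻ a : ℝ, ∫⁻ v : Fin n → ℝ, f (Fin.cons a v) := by
  have hmp := (volume_preserving_piFinSuccAbove (fun _ : Fin (n + 1) => ℝ) 0).symm
  have hcons := measurable_cons n
  have h1 := hmp.lintegral_comp hf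
  rw [← h1, Measure.volume_eq_prod, lintegral_prod]
  · simp only [MeasurableEquiv.piFinSuccAbove_symm_apply, Fin.insertNthEquiv_zero]
    rfl
  · have : (fun p : ℝ × (Fin n → ℝ) => f ((MeasurableEquiv.piFinSuccAbove
        (fun _ : Fin (n + 1) => ℝ) 0).symm p)) = fun p => f (Fin.cons p.1 p.2) := by
      ext p
      simp only [MeasurableEquiv.piFinSuccAbove_symm_apply, Fin.insertNthEquiv_zero]
      rfl
    rw [this]
    exact (hf.comp hcons).aemeasurable

/-- Prekopa-Leindler in dimension `n`, midpoint form -/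
theorem pln : ∀ (n : ℕ) (f g h : (Fin n → ℝ) → ℝ≥0∞), Measurable f → Measurable g →
    Measurable h →
    (∀ s t : Fin n → ℝ, f s * g t ≤ h (fun i => (s i + t i) / 2) ^ 2) →
    (∫⁻ s, f s) * (∫⁻ s, g s) ≤ (∫⁻ s, h s) ^ 2 := by
  intro n
  induction n with
  | zero =>
    intro f g h hf hg hh H
    simp only [lintegral_unique]
    have hv : (volume : Measure (Fin 0 → ℝ)) univ = 1 := by
      rw [Measure.volume_pi_eq_dirac (fun i => i.elim0)]; simp
    rw [hv]
    simp only [mul_one]
    have h1 : ∀ x y : Fin 0 → ℝ, x = y := fun x y => Subsingleton.elim _ _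
    have := H (Unique.instInhabited.default) (Unique.instInhabited.default)
    rw [h1 (fun i => _) (Unique.instInhabited.default)] at this
    exact this
  | succ n ih =>
    intro f g h hf hg hh H
    rw [lintegral_succ n f hf, lintegral_succ n g hg, lintegral_succ n h hh]
    have hcons := measurable_cons n
    have hcons2 : ∀ a : ℝ, Measurable (fun v : Fin n → ℝ => (Fin.cons a v : Fin (n + 1) → ℝ)) :=
      fun a => hcons.comp (measurable_const.prodMk measurable_id)
    refine pl1 _ _ _ ?_ ?_ ?_ ?_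
    · exact (hf.comp hcons).lintegral_prod_right'
    · exact (hg.comp hcons).lintegral_prod_right'
    · exact (hh.comp hcons).lintegral_prod_right'
    · intro x y
      refine ih _ _ _ (hf.comp (hcons2 x)) (hg.comp (hcons2 y)) (hh.comp (hcons2 _)) ?_
      intro s t
      have := H (Fin.cons x s) (Fin.cons y t)
      refine this.trans ?_
      gcongr
      apply le_of_eq
      congr 1
      ext i
      refine Fin.cases ?_ (fun j => ?_) i <;> simp

/-- Brunn-Minkowski, multiplicative midpoint form, in `Fin n → ℝ` -/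
theorem bm_pi {n : ℕ} {A B C : Set (Fin n → ℝ)} (hA : MeasurableSet A) (hB : MeasurableSet B)
    (hC : MeasurableSet C) (H : ∀ a ∈ A, ∀ b ∈ B, (fun i => (a i + b i) / 2) ∈ C) :
    volume A * volume B ≤ volume C ^ 2 := by
  have h := pln n (A.indicator 1) (B.indicator 1) (C.indicator 1)
    (measurable_one.indicator hA) (measurable_one.indicator hB) (measurable_one.indicator hC) ?_
  · rw [lintegral_indicator_one hA, lintegral_indicator_one hB, lintegral_indicator_one hC] at h
    exact h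
  · intro s t
    by_cases hs : s ∈ A
    · by_cases ht : t ∈ B
      · rw [indicator_of_mem hs, indicator_of_mem ht, indicator_of_mem (H s hs t ht)]
        simp
      · rw [indicator_of_notMem ht]; simp
    · rw [indicator_of_notMem hs]; simp

/-- Euclidean space -/
abbrev EE (n : ℕ) := EuclideanSpace ℝ (Fin n)

/-- the linear map swapping the coordinate along `u` with the extra coordinate -/
noncomputable def sw {n : ℕ} (u : EE n) (p : EE n × ℝ) : EE n × ℝ :=
  (p.1 - (inner ℝ p.1 u) • u + p.2 • u, inner ℝ p.1 u)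

/-- vertices `(y q, ± ⟪y q, u⟫)` -/
noncomputable def vx {n : ℕ} {Q : Type} (y : Q → EE n) (u : EE n) (p : Q × Bool) : EE n × ℝ :=
  (y p.1, (if p.2 then 1 else -1) * inner ℝ (y p.1) u)

/-- the body in dimension `n + 1` -/
noncomputable def BB {n : ℕ} {Q : Type} (y : Q → EE n) (u : EE n) : Set (EE n × ℝ) :=
  convexHull ℝ (range (vx y u))

/-- moment function -/
noncomputable def GG {n : ℕ} (L : Set (EE n)) (y : EE n) (z : EE n) : ℝ≥0∞ :=
  ∫⁻ t in Ioo (0:ℝ) 1, ENNReal.ofReal (2 * t) *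
    ({t : ℝ | (1 - t)⁻¹ • (z - t • y) ∈ L}).indicator 1 t

/-- Walsh–Hadamard data on `Fin n` -/
structure WH (n : ℕ) where
  s : Fin n → Fin n → ℝ
  add : Fin n → Fin n → Fin n
  s_abs : ∀ i k, s i k = 1 ∨ s i k = -1
  s_symm : ∀ i k, s i k = s k i
  orth : ∀ i j, ∑ k, s i k * s j k = if i = j then (n : ℝ) else 0
  add_comm : ∀ a i, add a i = add i a
  add_add : ∀ a i, add a (add a i) = i
  s_add : ∀ a i k, s (add a i) k = s a k * s i k

/-- index set of the vertices: sign, basis, index -/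
abbrev QQ (n : ℕ) := Bool × Bool × Fin n

/-- the `4n` vertices: `± √n e_i` and `± (s i k)_k` -/
noncomputable def yy {n : ℕ} (W : WH n) (q : QQ n) : EE n :=
  (if q.1 then (1:ℝ) else -1) •
    (if q.2.1 then WithLp.toLp 2 (fun k => W.s q.2.2 k)
      else WithLp.toLp 2 (fun k => if k = q.2.2 then Real.sqrt n else 0))

/-- average of the absolute values of the vertices in direction `u` -/
noncomputable def mm {n : ℕ} (W : WH n) (u : EE n) : ℝ :=
  (Real.sqrt n * ∑ k, |u k| + ∑ i, |∑ k, W.s i k * u k|) / (2 * n)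

/-! ### Brunn-Minkowski, slab lemma -/
/-- Brunn–Minkowski in `EE n` -/
theorem bm_E {n : ℕ} {A B C : Set (EE n)} (hA : MeasurableSet A) (hB : MeasurableSet B)
    (hC : MeasurableSet C) (H : ∀ a ∈ A, ∀ b ∈ B, (1 / 2 : ℝ) • (a + b) ∈ C) :
    volume A * volume B ≤ volume C ^ 2 := by
  have hmp := (EuclideanSpace.volume_preserving_symm_measurableEquiv_toLp (Fin n)).symm
  rw [← hmp.measure_preimage hA.nullMeasurableSet, ← hmp.measure_preimage hB.nullMeasurableSet,
    ← hmp.measure_preimage hC.nullMeasurableSet]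
  refine bm_pi (hmp.measurable hA) (hmp.measurable hB) (hmp.measurable hC) ?_
  intro a ha b hb
  have := H _ ha _ hb
  rw [mem_preimage]
  convert this using 1
  ext i
  simp
  ring

/-- the linear map -/
noncomputable def swL {n : ℕ} (u : EE n) : (EE n × ℝ) →ₗ[ℝ] (EE n × ℝ) where
  toFun := sw u
  map_add' := by
    intro p q
    unfold sw
    ext1
    · simp only [Prod.fst_add, Prod.snd_add, inner_add_left]
      module
    · simp [inner_add_left]
  map_smul' := by
    intro c p
    unfold sw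
    ext1
    · simp only [Prod.smul_fst, Prod.smul_snd, real_inner_smul_left, RingHom.id_apply, smul_eq_mul]
      module
    · simp [real_inner_smul_left]

theorem swL_apply {n : ℕ} (u : EE n) (p : EE n × ℝ) : swL u p = sw u p := rfl

theorem inner_sw {n : ℕ} (u : EE n) (hu : ‖u‖ = 1) (p : EE n × ℝ) :
    inner ℝ (sw u p).1 u = p.2 := by
  unfold sw
  simp only [inner_add_left, inner_sub_left, real_inner_smul_left, real_inner_self_eq_norm_sq, hu]
  ring

theorem sw_sw {n : ℕ} (u : EE n) (hu : ‖u‖ = 1) (p : EE n × ℝ) : sw u (sw u p) = p := by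
  have h := inner_sw u hu p
  ext1
  · change (sw u p).1 - (inner ℝ (sw u p).1 u) • u + (sw u p).2 • u = p.1
    rw [h]
    unfold sw
    simp only
    module
  · exact h

theorem continuous_sw {n : ℕ} (u : EE n) : Continuous (sw u) := by
  unfold sw
  fun_prop

theorem sw_mp {n : ℕ} (u : EE n) (hu : ‖u‖ = 1) :
    MeasurePreserving (sw u) ((volume : Measure (EE n)).prod volume)
      ((volume : Measure (EE n)).prod volume) := by
  have hcomp : (swL u) ∘ₗ (swL u) = LinearMap.id := by
    apply LinearMap.ext; intro p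
    simp only [LinearMap.comp_apply, swL_apply, sw_sw u hu]
    rfl
  have hdet : LinearMap.det (swL u) * LinearMap.det (swL u) = 1 := by
    rw [← LinearMap.det_comp, hcomp, LinearMap.det_id]
  have hdet0 : LinearMap.det (swL u) ≠ 0 := by
    intro h
    rw [h, zero_mul] at hdet
    exact zero_ne_one hdet
  have habs : |(LinearMap.det (swL u))⁻¹| = 1 := by
    rw [abs_inv]
    have : |LinearMap.det (swL u)| * |LinearMap.det (swL u)| = 1 := by
      rw [← abs_mul, hdet, abs_one]
    have h2 : |LinearMap.det (swL u)| = 1 := by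
      nlinarith [abs_nonneg (LinearMap.det (swL u))]
    rw [h2, inv_one]
  refine ⟨(continuous_sw u).measurable, ?_⟩
  have := Measure.map_linearMap_addHaar_eq_smul_addHaar
    ((volume : Measure (EE n)).prod (volume : Measure ℝ)) hdet0
  rw [habs, ENNReal.ofReal_one, one_smul] at this
  exact this

theorem slab {n : ℕ} (u : EE n) (hu : ‖u‖ = 1) (B : Set (EE n × ℝ)) (hB : MeasurableSet B)
    (hconv : Convex ℝ B) (hsym : ∀ p ∈ B, -p ∈ B) (a : ℝ) (ha : 0 ≤ a) :
    ((volume : Measure (EE n)).prod volume) (B ∩ {p | |inner ℝ p.1 u| ≤ a}) ≤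
      ENNReal.ofReal (2 * a) * volume {x : EE n | (x - (inner ℝ x u) • u, inner ℝ x u) ∈ B} := by
  set A : ℝ → Set (EE n) := fun s => {x | sw u (x, s) ∈ B} with hA
  have hAm : ∀ s, MeasurableSet (A s) := by
    intro s
    exact ((continuous_sw u).comp (by fun_prop : Continuous fun x : EE n => (x, s))).measurable hB
  have hA0 : A 0 = {x : EE n | (x - (inner ℝ x u) • u, inner ℝ x u) ∈ B} := by
    ext x
    simp [hA, sw]
  have hslab : MeasurableSet {p : EE n × ℝ | |inner ℝ p.1 u| ≤ a} := by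
    have : Continuous fun p : EE n × ℝ => |inner ℝ p.1 u| := by fun_prop
    exact measurableSet_le this.measurable measurable_const
  have hB2 : MeasurableSet (B ∩ {p | |inner ℝ p.1 u| ≤ a}) := hB.inter hslab
  have hle : ∀ s, volume (A s) ≤ volume (A 0) := by
    intro s
    have hneg : volume (A (-s)) = volume (A s) := by
      rw [← Measure.measure_preimage_neg volume (A s)]
      congr 1
      ext x
      simp only [hA, mem_preimage]
      change sw u (x, -s) ∈ B ↔ sw u (-x, s) ∈ B
      have h1 : sw u (-x, s) = - sw u (x, -s) := by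
        have := (swL u).map_neg (x, -s)
        rw [swL_apply, swL_apply] at this
        rw [← this]
        simp
      rw [h1]
      constructor
      · intro h; exact hsym _ h
      · intro h; have := hsym _ h; rwa [neg_neg] at this
    have hbm : volume (A s) * volume (A (-s)) ≤ volume (A 0) ^ 2 := by
      apply bm_E (hAm _) (hAm _) (hAm _)
      intro x hx y hy
      change sw u ((1/2 : ℝ) • (x + y), 0) ∈ B
      have h1 : sw u ((1/2 : ℝ) • (x + y), 0) = (1/2 : ℝ) • sw u (x, s) + (1/2 : ℝ) • sw u (y, -s) := by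
        rw [← swL_apply, ← swL_apply, ← swL_apply, ← map_smul, ← map_smul, ← map_add]
        congr 1
        ext1
        · simp
        · simp
      rw [h1]
      exact hconv hx hy (by norm_num) (by norm_num) (by norm_num)
    rw [hneg, ← pow_two] at hbm
    by_contra hcon
    rw [not_le] at hcon
    have := ENNReal.pow_lt_pow_left two_ne_zero hcon
    exact absurd hbm (not_le.2 this)
  rw [← (sw_mp u hu).measure_preimage hB2.nullMeasurableSet,
    Measure.prod_apply_symm ((sw_mp u hu).measurable hB2)]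
  calc ∫⁻ s, volume ((fun x => (x, s)) ⁻¹' (sw u ⁻¹' (B ∩ {p | |inner ℝ p.1 u| ≤ a}))) ≤
      ∫⁻ s, (Icc (-a) a).indicator (fun _ => volume (A 0)) s := by
        apply lintegral_mono
        intro s
        simp only
        by_cases hs : s ∈ Icc (-a) a
        · rw [indicator_of_mem hs]
          refine le_trans (measure_mono ?_) (hle s)
          intro x hx
          exact hx.1
        · rw [indicator_of_notMem hs, nonpos_iff_eq_zero]
          convert measure_empty (μ := (volume : Measure (EE n)))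
          rw [eq_empty_iff_forall_notMem]
          intro x hx
          have h2 : |inner ℝ (sw u (x, s)).1 u| ≤ a := hx.2
          rw [inner_sw u hu] at h2
          exact hs (abs_le.1 h2)
    _ = _ := by
        rw [lintegral_indicator measurableSet_Icc, lintegral_const, Measure.restrict_apply_univ,
          Real.volume_Icc, hA0, mul_comm]
        congr 2
        ring

/-! ### moment functions -/

lemma meas_aux {n : ℕ} (L : Set (EE n)) (hL : IsClosed L) (y : EE n) :
    Measurable (fun p : EE n × ℝ => ENNReal.ofReal (2 * p.2) *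
      ({t : ℝ | (1 - t)⁻¹ • (p.1 - t • y) ∈ L}).indicator (1 : ℝ → ℝ≥0∞) p.2) := by
  apply Measurable.mul
  · exact ENNReal.measurable_ofReal.comp (measurable_snd.const_mul 2)
  · have h1 : (fun p : EE n × ℝ =>
        ({t : ℝ | (1 - t)⁻¹ • (p.1 - t • y) ∈ L}).indicator (1 : ℝ → ℝ≥0∞) p.2) =
        ({p : EE n × ℝ | (1 - p.2)⁻¹ • (p.1 - p.2 • y) ∈ L}).indicator 1 := by
      funext p
      rfl
    rw [h1]
    apply Measurable.indicator measurable_one
    have h2 : Measurable (fun p : EE n × ℝ => (1 - p.2)⁻¹ • (p.1 - p.2 • y)) := by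
      have h3 : Measurable (fun p : EE n × ℝ => (1 - p.2)⁻¹) :=
        (measurable_const.sub measurable_snd).inv
      have h4 : Measurable (fun p : EE n × ℝ => p.1 - p.2 • y) :=
        measurable_fst.sub (measurable_snd.smul_const y)
      exact h3.smul h4
    exact h2 hL.measurableSet

theorem GG_measurable {n : ℕ} (L : Set (EE n)) (hL : IsClosed L) (y : EE n) :
    Measurable (GG L y) := by
  unfold GG
  exact (meas_aux L hL y).lintegral_prod_right' (ν := volume.restrict (Ioo (0:ℝ) 1))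

/-- points of the convex hull of a finite family are convex combinations -/
theorem exists_weights {n : ℕ} {Q : Type} [Fintype Q] (y : Q → EE n) (z : EE n)
    (hz : z ∈ convexHull ℝ (range y)) :
    ∃ w : Q → ℝ, (∀ q, 0 ≤ w q) ∧ ∑ q, w q = 1 ∧ ∑ q, w q • y q = z := by
  classical
  have h : convexHull ℝ (range y) ⊆
      {z | ∃ w : Q → ℝ, (∀ q, 0 ≤ w q) ∧ ∑ q, w q = 1 ∧ ∑ q, w q • y q = z} := by
    apply convexHull_min
    · rintro _ ⟨q, rfl⟩
      refine ⟨fun p => if p = q then 1 else 0, ?_, ?_, ?_⟩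
      · intro p
        simp only
        split_ifs <;> norm_num
      · simp
      · simp
    · rintro a ⟨w, hw0, hw1, rfl⟩ b ⟨v, hv0, hv1, rfl⟩ s t hs ht hst
      refine ⟨fun q => s * w q + t * v q, ?_, ?_, ?_⟩
      · intro q
        have := hw0 q
        have := hv0 q
        positivity
      · rw [Finset.sum_add_distrib, ← Finset.mul_sum, ← Finset.mul_sum, hw1, hv1]
        linarith
      · rw [Finset.smul_sum, Finset.smul_sum, ← Finset.sum_add_distrib]
        apply Finset.sum_congr rfl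
        intro q _
        rw [add_smul, smul_smul, smul_smul]
  exact h hz

theorem GG_ge {n : ℕ} {Q : Type} [Fintype Q] (y : Q → EE n) (w : Q → ℝ) (hw0 : ∀ q, 0 ≤ w q)
    (hw1 : ∑ q, w q = 1) (q : Q) :
    ENNReal.ofReal ((w q) ^ 2) ≤ GG (convexHull ℝ (range y)) (y q) (∑ q, w q • y q) := by
  classical
  have hwq : w q ≤ 1 := by
    rw [← hw1]
    exact Finset.single_le_sum (f := w) (fun i _ => hw0 i) (Finset.mem_univ q)
  have hmem : ∀ t : ℝ, t ∈ Ioo 0 (w q) →
      (1 - t)⁻¹ • ((∑ q, w q • y q) - t • y q) ∈ convexHull ℝ (range y) := by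
    intro t ht
    have ht1 : 0 < 1 - t := by linarith [ht.2]
    have h1 : (1 - t)⁻¹ • ((∑ q, w q • y q) - t • y q) =
        ∑ p, ((1 - t)⁻¹ * (w p - if p = q then t else 0)) • y p := by
      have h2 : t • y q = ∑ p, (if p = q then t else 0) • y p := by simp
      rw [h2, ← Finset.sum_sub_distrib, Finset.smul_sum]
      apply Finset.sum_congr rfl
      intro p _
      rw [← sub_smul, smul_smul]
    rw [h1]
    apply (convex_convexHull ℝ (range y)).sum_mem
    · intro p _
      apply mul_nonneg (inv_nonneg.mpr ht1.le)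
      split_ifs with hp
      · rw [hp]; linarith [ht.2]
      · linarith [hw0 p]
    · rw [← Finset.mul_sum, Finset.sum_sub_distrib, hw1]
      simp only [Finset.sum_ite_eq', Finset.mem_univ, if_true]
      exact inv_mul_cancel₀ ht1.ne'
    · intro p _
      exact subset_convexHull ℝ _ ⟨p, rfl⟩
  have h3 : ∫⁻ t in Ioo (0:ℝ) (w q), ENNReal.ofReal (2 * t) = ENNReal.ofReal ((w q) ^ 2) := by
    rw [← ofReal_integral_eq_lintegral_ofReal]
    · congr 1
      rw [← integral_Ioc_eq_integral_Ioo, ← intervalIntegral.integral_of_le (hw0 q)]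
      rw [intervalIntegral.integral_const_mul, integral_id]
      ring
    · have : IntervalIntegrable (fun t : ℝ => 2 * t) volume 0 (w q) :=
        (continuous_const.mul continuous_id).intervalIntegrable _ _
      rw [intervalIntegrable_iff_integrableOn_Ioo_of_le (hw0 q)] at this
      exact this
    · rw [Filter.EventuallyLE, ae_restrict_iff' measurableSet_Ioo]
      filter_upwards with t ht
      simp only [Pi.zero_apply]
      linarith [ht.1]
  rw [← h3]
  unfold GG
  calc ∫⁻ t in Ioo (0:ℝ) (w q), ENNReal.ofReal (2 * t)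
      = ∫⁻ t in Ioo (0:ℝ) (w q), ENNReal.ofReal (2 * t) *
        ({t : ℝ | (1 - t)⁻¹ • ((∑ q, w q • y q) - t • y q) ∈
          convexHull ℝ (range y)}).indicator 1 t := by
        apply setLIntegral_congr_fun measurableSet_Ioo
        intro t ht
        have h5 : t ∈ {t : ℝ | (1 - t)⁻¹ • ((∑ q, w q • y q) - t • y q) ∈
          convexHull ℝ (range y)} := hmem t ht
        simp only
        rw [indicator_of_mem h5]
        simp
    _ ≤ _ := lintegral_mono_set (Ioo_subset_Ioo_right hwq)


theorem lintegral_GG {n : ℕ} (hn : 1 ≤ n) (L : Set (EE n)) (hL : IsClosed L) (y : EE n) :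
    ∫⁻ z, GG L y z ≤ ENNReal.ofReal (2 / (n : ℝ) ^ 2) * volume L := by
  unfold GG
  rw [lintegral_lintegral_swap (meas_aux L hL y).aemeasurable]
  have hinner : ∀ t ∈ Ioo (0:ℝ) 1, ∫⁻ z : EE n, ENNReal.ofReal (2 * t) *
      ({t : ℝ | (1 - t)⁻¹ • (z - t • y) ∈ L}).indicator 1 t =
      ENNReal.ofReal (2 * t * (1 - t) ^ n) * volume L := by
    intro t ht
    have ht1 : 0 < 1 - t := by linarith [ht.2]
    have h1 : (fun z : EE n => ENNReal.ofReal (2 * t) *
      ({t : ℝ | (1 - t)⁻¹ • (z - t • y) ∈ L}).indicator (1 : ℝ → ℝ≥0∞) t) =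
      fun z : EE n => ENNReal.ofReal (2 * t) *
      ({z : EE n | (1 - t)⁻¹ • (z - t • y) ∈ L}).indicator (1 : EE n → ℝ≥0∞) z := by
      funext z
      rfl
    have hms : MeasurableSet {z : EE n | (1 - t)⁻¹ • (z - t • y) ∈ L} := by
      have h2 : Measurable (fun z : EE n => (1 - t)⁻¹ • (z - t • y)) :=
        (measurable_id.sub_const (t • y)).const_smul (1 - t)⁻¹
      exact h2 hL.measurableSet
    rw [h1, lintegral_const_mul _ (measurable_one.indicator hms), lintegral_indicator_one hms]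
    have h3 : volume {z : EE n | (1 - t)⁻¹ • (z - t • y) ∈ L} =
        ENNReal.ofReal ((1 - t) ^ n) * volume L := by
      have h4 : {z : EE n | (1 - t)⁻¹ • (z - t • y) ∈ L} =
          (fun z : EE n => z + (-(t • y))) ⁻¹' ((fun z : EE n => (1 - t)⁻¹ • z) ⁻¹' L) := by
        ext z
        simp only [mem_preimage, sub_eq_add_neg]
        rfl
      rw [h4, measure_preimage_add_right, Measure.addHaar_preimage_smul _ (inv_ne_zero ht1.ne')]
      congr 2
      rw [finrank_euclideanSpace_fin, inv_pow, inv_inv, abs_of_pos (by positivity)]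
    rw [h3, ← mul_assoc, ← ENNReal.ofReal_mul (by linarith [ht.1])]
  have hcont : Continuous (fun t : ℝ => 2 * t * (1 - t) ^ n) := by fun_prop
  have hmeas : Measurable (fun t : ℝ => ENNReal.ofReal (2 * t * (1 - t) ^ n)) :=
    ENNReal.measurable_ofReal.comp hcont.measurable
  rw [setLIntegral_congr_fun measurableSet_Ioo hinner, lintegral_mul_const _ hmeas]
  gcongr
  rw [← ofReal_integral_eq_lintegral_ofReal]
  · apply ENNReal.ofReal_le_ofReal
    rw [← integral_Ioc_eq_integral_Ioo, ← intervalIntegral.integral_of_le zero_le_one]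
    have hderiv : ∀ t ∈ uIcc (0:ℝ) 1, HasDerivAt (fun t : ℝ =>
        -(2 * t * (1 - t) ^ (n + 1) / (n + 1)) - 2 * (1 - t) ^ (n + 2) / ((n + 1) * (n + 2)))
        (2 * t * (1 - t) ^ n) t := by
      intro t _
      have e1 : HasDerivAt (fun t : ℝ => 1 - t) (-1) t := by
        simpa using (hasDerivAt_id t).const_sub 1
      have e2 := e1.pow (n + 1)
      have e3 := e1.pow (n + 2)
      have e4 : HasDerivAt (fun t : ℝ => 2 * t) 2 t := by
        simpa using (hasDerivAt_id t).const_mul 2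
      have e5 := ((e4.mul e2).div_const ((n : ℝ) + 1)).neg
      have e6 := (e3.const_mul 2).div_const (((n : ℝ) + 1) * ((n : ℝ) + 2))
      have e7 := e5.sub e6
      refine e7.congr_deriv ?_
      have n1 : (n : ℝ) + 1 ≠ 0 := by positivity
      have n2 : (n : ℝ) + 2 ≠ 0 := by positivity
      simp only [Nat.add_sub_cancel, Pi.pow_apply]
      push_cast
      field_simp
      ring
    rw [intervalIntegral.integral_eq_sub_of_hasDerivAt hderiv (hcont.intervalIntegrable _ _)]
    have n1 : (0 : ℝ) < n := by exact_mod_cast hn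
    simp only [sub_self, mul_zero, zero_mul, sub_zero, one_pow, mul_one, ne_eq, Nat.add_eq_zero_iff,
      one_ne_zero, and_false, not_false_eq_true, zero_pow, OfNat.ofNat_ne_zero, zero_div, neg_zero,
      zero_sub, neg_neg]
    apply div_le_div_of_nonneg_left (by norm_num) (by positivity)
    nlinarith
  · have : IntervalIntegrable (fun t : ℝ => 2 * t * (1 - t) ^ n) volume 0 1 :=
      hcont.intervalIntegrable _ _
    rw [intervalIntegrable_iff_integrableOn_Ioo_of_le zero_le_one] at this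
    exact this
  · rw [Filter.EventuallyLE, ae_restrict_iff' measurableSet_Ioo]
    filter_upwards with t ht
    simp only [Pi.zero_apply]
    have h1 := ht.1
    have h2 : 0 < 1 - t := by linarith [ht.2]
    positivity


/-! ### fibres -/

theorem vx_sign {n : ℕ} {Q : Type} (y : Q → EE n) (u : EE n) (q : Q) :
    ((y q, |inner ℝ (y q) u|) : EE n × ℝ) ∈ BB y u ∧ ((y q, -|inner ℝ (y q) u|) : EE n × ℝ) ∈ BB y u := by
  have h1 : vx y u (q, true) ∈ BB y u := subset_convexHull ℝ _ ⟨_, rfl⟩
  have h2 : vx y u (q, false) ∈ BB y u := subset_convexHull ℝ _ ⟨_, rfl⟩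
  have e1 : vx y u (q, true) = (y q, inner ℝ (y q) u) := by simp [vx]
  have e2 : vx y u (q, false) = (y q, - inner ℝ (y q) u) := by simp [vx]
  rw [e1] at h1
  rw [e2] at h2
  rcases abs_cases (inner ℝ (y q) u) with ⟨h, _⟩ | ⟨h, _⟩
  · rw [h]; exact ⟨h1, h2⟩
  · rw [h, neg_neg]; exact ⟨h2, h1⟩

/-- fibres of the truncated body over a transformed point are long -/
theorem fiber_ge {n : ℕ} {Q : Type} [Fintype Q] (y : Q → EE n) (u : EE n)
    (T : EE n ≃ₗᵢ[ℝ] EE n) (hT : ∀ q, T (y q) ∈ range y) (w : Q → ℝ) (hw0 : ∀ q, 0 ≤ w q)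
    (hw1 : ∑ q, w q = 1) (M : ℝ) (hM : 0 < M) :
    ENNReal.ofReal (2 * (∑ q, w q * |inner ℝ (T (y q)) u|)
      - (∑ q, w q * |inner ℝ (T (y q)) u|) ^ 2 / (2 * M)) ≤
      volume {τ : ℝ | (T (∑ q, w q • y q), τ) ∈ BB y u ∩ {p | |p.2| ≤ M}} := by
  set W : ℝ := ∑ q, w q * |inner ℝ (T (y q)) u| with hW
  have hconv : Convex ℝ (BB y u) := convex_convexHull ℝ _
  have hW0 : 0 ≤ W := Finset.sum_nonneg fun q _ => mul_nonneg (hw0 q) (abs_nonneg _)
  have hTq : ∀ q, ((T (y q), |inner ℝ (T (y q)) u|) : EE n × ℝ) ∈ BB y u ∧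
      ((T (y q), -|inner ℝ (T (y q)) u|) : EE n × ℝ) ∈ BB y u := by
    intro q
    obtain ⟨q', hq'⟩ := hT q
    rw [← hq']
    exact vx_sign y u q'
  have hTz : T (∑ q, w q • y q) = ∑ q, w q • T (y q) := by
    rw [map_sum]
    exact Finset.sum_congr rfl fun q _ => map_smul T _ _
  have hp : ((T (∑ q, w q • y q), W) : EE n × ℝ) ∈ BB y u := by
    have h1 := hconv.sum_mem (t := Finset.univ) (w := w)
      (z := fun q => ((T (y q), |inner ℝ (T (y q)) u|) : EE n × ℝ)) (fun q _ => hw0 q) hw1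
      (fun q _ => (hTq q).1)
    have h2 : ∑ q, w q • ((T (y q), |inner ℝ (T (y q)) u|) : EE n × ℝ) = (T (∑ q, w q • y q), W) := by
      refine Prod.ext ?_ ?_
      · rw [Prod.fst_sum, hTz]; rfl
      · rw [Prod.snd_sum, hW]; rfl
    rwa [h2] at h1
  have hm : ((T (∑ q, w q • y q), -W) : EE n × ℝ) ∈ BB y u := by
    have h1 := hconv.sum_mem (t := Finset.univ) (w := w)
      (z := fun q => ((T (y q), -|inner ℝ (T (y q)) u|) : EE n × ℝ)) (fun q _ => hw0 q) hw1
      (fun q _ => (hTq q).2)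
    have h2 : ∑ q, w q • ((T (y q), -|inner ℝ (T (y q)) u|) : EE n × ℝ) = (T (∑ q, w q • y q), -W) := by
      refine Prod.ext ?_ ?_
      · rw [Prod.fst_sum, hTz]; rfl
      · rw [Prod.snd_sum, hW, ← Finset.sum_neg_distrib]
        exact Finset.sum_congr rfl fun q _ => by simp
    rwa [h2] at h1
  have hfib : ∀ τ : ℝ, |τ| ≤ W → ((T (∑ q, w q • y q), τ) : EE n × ℝ) ∈ BB y u := by
    intro τ hτ
    rcases hW0.eq_or_lt with h0 | h0
    · have : τ = W := by
        rw [← h0] at hτ
        rw [abs_nonpos_iff.mp hτ, h0]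
      rw [this]; exact hp
    · rw [abs_le] at hτ
      have h1 := hconv hp hm (a := (τ + W) / (2 * W)) (b := (W - τ) / (2 * W))
        (div_nonneg (by linarith) (by linarith)) (div_nonneg (by linarith) (by linarith))
        (by field_simp; ring)
      have h2 : ((τ + W) / (2 * W)) • ((T (∑ q, w q • y q), W) : EE n × ℝ) +
          ((W - τ) / (2 * W)) • ((T (∑ q, w q • y q), -W) : EE n × ℝ) = (T (∑ q, w q • y q), τ) := by
        refine Prod.ext ?_ ?_
        · show ((τ + W) / (2 * W)) • T (∑ q, w q • y q) + ((W - τ) / (2 * W)) • T (∑ q, w q • y q) = _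
          rw [← add_smul]
          have : (τ + W) / (2 * W) + (W - τ) / (2 * W) = 1 := by field_simp; ring
          rw [this, one_smul]
        · show ((τ + W) / (2 * W)) * W + ((W - τ) / (2 * W)) * (-W) = τ
          field_simp; ring
      rwa [h2] at h1
  have hsub : Icc (-(min W M)) (min W M) ⊆ {τ : ℝ | (T (∑ q, w q • y q), τ) ∈ BB y u ∩ {p | |p.2| ≤ M}} := by
    intro τ hτ
    have h1 : |τ| ≤ min W M := abs_le.mpr hτ
    exact ⟨hfib τ (h1.trans (min_le_left _ _)), h1.trans (min_le_right _ _)⟩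
  refine le_trans ?_ (measure_mono hsub)
  rw [Real.volume_Icc]
  apply ENNReal.ofReal_le_ofReal
  rcases le_total W M with h | h
  · rw [min_eq_left h]
    have : 0 ≤ W ^ 2 / (2 * M) := by positivity
    linarith
  · rw [min_eq_right h]
    have h3 : 0 ≤ (W - 2 * M) ^ 2 / (2 * M) := by positivity
    have h4 : (W - 2 * M) ^ 2 / (2 * M) = W ^ 2 / (2 * M) - 2 * W + 2 * M := by field_simp; ring
    linarith

theorem BB_compact {n : ℕ} {Q : Type} [Finite Q] (y : Q → EE n) (u : EE n) :
    IsCompact (BB y u) := (Set.finite_range _).isCompact_convexHull (𝕜 := ℝ)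


/-! ### volume lower bound -/

theorem ofReal_sum_le' {ι : Type*} (s : Finset ι) (f : ι → ℝ) :
    ENNReal.ofReal (∑ i ∈ s, f i) ≤ ∑ i ∈ s, ENNReal.ofReal (f i) := by
  classical
  induction s using Finset.induction_on with
  | empty => simp
  | insert a s ha ih =>
    rw [Finset.sum_insert ha, Finset.sum_insert ha]
    exact le_trans ENNReal.ofReal_add_le (add_le_add_right ih _)

theorem vol_lower_pointwise {n : ℕ} {Q Γ : Type} [Fintype Q] [Fintype Γ] [Nonempty Γ]
    (y : Q → EE n) (u : EE n)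
    (T : Γ → EE n ≃ₗᵢ[ℝ] EE n) (hT : ∀ γ q, T γ (y q) ∈ range y)
    (m : ℝ) (hm : 0 < m)
    (h1 : ∀ q, (Fintype.card Γ : ℝ) * m ≤ ∑ γ, |inner ℝ (T γ (y q)) u|)
    (h2 : ∀ γ, ∑ q, |inner ℝ (T γ (y q)) u| ≤ 4 * n * m)
    (z : EE n) (hz : z ∈ convexHull ℝ (range y)) :
    ENNReal.ofReal (2 * ((Fintype.card Γ : ℝ) * m)) ≤
      ∑ γ, volume {τ : ℝ | (T γ z, τ) ∈ BB y u ∩ {p | |p.2| ≤ 16 * m}} +
      ∑ γ, ∑ q, ENNReal.ofReal (4 * n * m * |inner ℝ (T γ (y q)) u| / (2 * (16 * m))) *
        GG (convexHull ℝ (range y)) (y q) z := by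
  obtain ⟨w, hw0, hw1, rfl⟩ := exists_weights y z hz
  set c : Γ → Q → ℝ := fun γ q => |inner ℝ (T γ (y q)) u| with hc
  have hc0 : ∀ γ q, 0 ≤ c γ q := fun γ q => abs_nonneg _
  set W : Γ → ℝ := fun γ => ∑ q, w q * c γ q with hW
  have hM : (0:ℝ) < 16 * m := by positivity
  have hfib : ∀ γ, ENNReal.ofReal (2 * W γ - (W γ) ^ 2 / (2 * (16 * m))) ≤
      volume {τ : ℝ | (T γ (∑ q, w q • y q), τ) ∈ BB y u ∩ {p | |p.2| ≤ 16 * m}} := fun γ =>
    fiber_ge y u (T γ) (hT γ) w hw0 hw1 (16 * m) hM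
  have hW1 : (Fintype.card Γ : ℝ) * m ≤ ∑ γ, W γ := by
    rw [hW, Finset.sum_comm]
    calc (Fintype.card Γ : ℝ) * m = ∑ q, w q * ((Fintype.card Γ : ℝ) * m) := by
          rw [← Finset.sum_mul, hw1, one_mul]
      _ ≤ ∑ q, ∑ γ, w q * c γ q := by
          refine Finset.sum_le_sum fun q _ => ?_
          rw [← Finset.mul_sum]
          exact mul_le_mul_of_nonneg_left (h1 q) (hw0 q)
  have hW2 : ∀ γ, (W γ) ^ 2 ≤ (4 * n * m) * ∑ q, c γ q * (w q) ^ 2 := by
    intro γ
    have h3 : (∑ q, w q * c γ q) ^ 2 ≤ (∑ q, c γ q) * ∑ q, c γ q * (w q) ^ 2 := by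
      refine Finset.sum_sq_le_sum_mul_sum_of_sq_le_mul _ (fun q _ => hc0 γ q)
        (fun q _ => mul_nonneg (hc0 γ q) (sq_nonneg _)) (fun q _ => le_of_eq (by ring))
    refine le_trans h3 (mul_le_mul_of_nonneg_right (h2 γ) ?_)
    exact Finset.sum_nonneg fun q _ => mul_nonneg (hc0 γ q) (sq_nonneg _)
  have hreal : 2 * ((Fintype.card Γ : ℝ) * m) ≤
      ∑ γ, (2 * W γ - (W γ) ^ 2 / (2 * (16 * m))) +
      ∑ γ, ∑ q, (4 * n * m * c γ q / (2 * (16 * m))) * (w q) ^ 2 := by
    rw [← Finset.sum_add_distrib]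
    calc 2 * ((Fintype.card Γ : ℝ) * m) ≤ 2 * ∑ γ, W γ := by linarith
      _ = ∑ γ, 2 * W γ := by rw [Finset.mul_sum]
      _ ≤ _ := by
          refine Finset.sum_le_sum fun γ _ => ?_
          have h4 : (W γ) ^ 2 / (2 * (16 * m)) ≤
              ∑ q, (4 * n * m * c γ q / (2 * (16 * m))) * (w q) ^ 2 := by
            rw [div_le_iff₀ (by positivity), Finset.sum_mul]
            refine le_trans (hW2 γ) (le_of_eq ?_)
            rw [Finset.mul_sum]
            refine Finset.sum_congr rfl fun q _ => ?_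
            field_simp
          linarith
  refine le_trans (ENNReal.ofReal_le_ofReal hreal) (le_trans ENNReal.ofReal_add_le ?_)
  refine add_le_add ?_ ?_
  · refine le_trans (ofReal_sum_le' _ _) (Finset.sum_le_sum fun γ _ => hfib γ)
  · refine le_trans (ofReal_sum_le' _ _) (Finset.sum_le_sum fun γ _ => ?_)
    refine le_trans (ofReal_sum_le' _ _) (Finset.sum_le_sum fun q _ => ?_)
    rw [ENNReal.ofReal_mul (by
      refine div_nonneg (mul_nonneg (by positivity) (hc0 γ q)) (by positivity))]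
    exact mul_le_mul_right (GG_ge y w hw0 hw1 q) _

theorem vol_lower {n : ℕ} (hn : 1 ≤ n) {Q Γ : Type} [Fintype Q] [Fintype Γ] [Nonempty Γ]
    (y : Q → EE n) (u : EE n)
    (T : Γ → EE n ≃ₗᵢ[ℝ] EE n) (hT : ∀ γ q, T γ (y q) ∈ range y)
    (m : ℝ) (hm : 0 < m)
    (h1 : ∀ q, (Fintype.card Γ : ℝ) * m ≤ ∑ γ, |inner ℝ (T γ (y q)) u|)
    (h2 : ∀ γ, ∑ q, |inner ℝ (T γ (y q)) u| ≤ 4 * n * m) :
    ENNReal.ofReal m * volume (convexHull ℝ (range y)) ≤
      ((volume : Measure (EE n)).prod volume) (BB y u ∩ {p | |p.2| ≤ 16 * m}) := by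
  set L := convexHull ℝ (range y) with hL
  have hLc : IsCompact L := Set.Finite.isCompact_convexHull (𝕜 := ℝ) (Set.finite_range y)
  have hLfin : volume L ≠ ⊤ := hLc.measure_ne_top
  set B := BB y u ∩ {p : EE n × ℝ | |p.2| ≤ 16 * m} with hB
  have hBc : IsClosed B := (BB_compact y u).isClosed.inter
    (isClosed_le (continuous_abs.comp continuous_snd) continuous_const)
  have hBm : MeasurableSet B := hBc.measurableSet
  set fib : EE n → ℝ≥0∞ := fun z => volume (Prod.mk z ⁻¹' B) with hfib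
  have hfm : Measurable fib := measurable_measure_prodMk_left hBm
  have hvol : ((volume : Measure (EE n)).prod volume) B = ∫⁻ z, fib z := by
    rw [Measure.prod_apply hBm]
  have hTvol : ∀ γ, ∫⁻ z, fib (T γ z) = ∫⁻ z, fib z := fun γ =>
    ((T γ).measurePreserving).lintegral_comp hfm
  set c : Γ → Q → ℝ := fun γ q => |inner ℝ (T γ (y q)) u| with hc
  have hc0 : ∀ γ q, 0 ≤ c γ q := fun γ q => abs_nonneg _
  have hN0 : (Fintype.card Γ : ℝ) ≠ 0 := by
    exact_mod_cast Fintype.card_ne_zero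
  have hn' : (n:ℝ) ≠ 0 := by
    have : n ≠ 0 := by omega
    exact_mod_cast this
  have key : ENNReal.ofReal (2 * ((Fintype.card Γ : ℝ) * m)) * volume L ≤
      (Fintype.card Γ : ℝ≥0∞) * (∫⁻ z, fib z) +
        ENNReal.ofReal ((Fintype.card Γ : ℝ) * m) * volume L := by
    calc ENNReal.ofReal (2 * ((Fintype.card Γ : ℝ) * m)) * volume L
        = ∫⁻ z in L, ENNReal.ofReal (2 * ((Fintype.card Γ : ℝ) * m)) := by
          rw [setLIntegral_const]
      _ ≤ ∫⁻ z in L, (∑ γ, fib (T γ z) +
            ∑ γ, ∑ q, ENNReal.ofReal (4 * n * m * c γ q / (2 * (16 * m))) *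
              GG L (y q) z) := by
          refine setLIntegral_mono' hLc.measurableSet fun z hz => ?_
          exact vol_lower_pointwise y u T hT m hm h1 h2 z hz
      _ ≤ ∫⁻ z, (∑ γ, fib (T γ z) +
            ∑ γ, ∑ q, ENNReal.ofReal (4 * n * m * c γ q / (2 * (16 * m))) *
              GG L (y q) z) := setLIntegral_le_lintegral _ _
      _ = (∑ γ, ∫⁻ z, fib (T γ z)) +
            ∑ γ, ∑ q, ENNReal.ofReal (4 * n * m * c γ q / (2 * (16 * m))) *
              ∫⁻ z, GG L (y q) z := by
          have hGm : ∀ q, Measurable (GG L (y q)) := fun q => GG_measurable L hLc.isClosed (y q)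
          have hfTm : ∀ γ, Measurable fun z => fib (T γ z) := fun γ =>
            hfm.comp (T γ).continuous.measurable
          rw [lintegral_add_left (Finset.measurable_sum _ fun γ _ => hfTm γ),
            lintegral_finsetSum _ (fun γ _ => hfTm γ),
            lintegral_finsetSum _ (fun γ _ => Finset.measurable_sum _ fun q _ =>
              (hGm q).const_mul _)]
          congr 1
          refine Finset.sum_congr rfl fun γ _ => ?_
          rw [lintegral_finsetSum _ (fun q _ => (hGm q).const_mul _)]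
          refine Finset.sum_congr rfl fun q _ => ?_
          rw [lintegral_const_mul _ (hGm q)]
      _ ≤ (Fintype.card Γ : ℝ≥0∞) * (∫⁻ z, fib z) +
            ∑ γ, ∑ q, ENNReal.ofReal (4 * n * m * c γ q / (2 * (16 * m))) *
              (ENNReal.ofReal (2 / (n:ℝ) ^ 2) * volume L) := by
          refine add_le_add (le_of_eq ?_) ?_
          · rw [Finset.sum_congr rfl fun γ _ => hTvol γ, Finset.sum_const, Finset.card_univ,
              nsmul_eq_mul]
          · refine Finset.sum_le_sum fun γ _ => Finset.sum_le_sum fun q _ => ?_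
            exact mul_le_mul_right (lintegral_GG hn L hLc.isClosed (y q)) _
      _ ≤ _ := by
          refine add_le_add_right ?_ _
          have e1 : ∑ γ, ∑ q, ENNReal.ofReal (4 * n * m * c γ q / (2 * (16 * m))) *
              (ENNReal.ofReal (2 / (n:ℝ) ^ 2) * volume L) =
              ENNReal.ofReal (∑ γ, ∑ q, 4 * n * m * c γ q / (2 * (16 * m)) * (2 / (n:ℝ) ^ 2)) *
              volume L := by
            rw [ENNReal.ofReal_sum_of_nonneg (fun γ _ => Finset.sum_nonneg fun q _ => by
              have := hc0 γ q; positivity), Finset.sum_mul]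
            refine Finset.sum_congr rfl fun γ _ => ?_
            rw [ENNReal.ofReal_sum_of_nonneg (fun q _ => by
              have := hc0 γ q; positivity), Finset.sum_mul]
            refine Finset.sum_congr rfl fun q _ => ?_
            rw [ENNReal.ofReal_mul (by have := hc0 γ q; positivity), mul_assoc (ENNReal.ofReal _)]
          rw [e1]
          refine mul_le_mul_left (ENNReal.ofReal_le_ofReal ?_) _
          calc ∑ γ, ∑ q, 4 * n * m * c γ q / (2 * (16 * m)) * (2 / (n:ℝ) ^ 2)
              = ∑ γ, (∑ q, c γ q) * (1 / (4 * n)) := by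
                refine Finset.sum_congr rfl fun γ _ => ?_
                rw [Finset.sum_mul]
                refine Finset.sum_congr rfl fun q _ => ?_
                field_simp
                ring
            _ ≤ ∑ γ : Γ, (4 * n * m) * (1 / (4 * n)) := by
                refine Finset.sum_le_sum fun γ _ => ?_
                exact mul_le_mul_of_nonneg_right (h2 γ) (by positivity)
            _ = (Fintype.card Γ : ℝ) * m := by
                rw [Finset.sum_const, Finset.card_univ, nsmul_eq_mul]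
                field_simp
  rw [hvol]
  have hNm : 0 ≤ (Fintype.card Γ : ℝ) * m := by positivity
  rw [two_mul, ENNReal.ofReal_add hNm hNm, add_mul] at key
  have hfin2 : ENNReal.ofReal ((Fintype.card Γ : ℝ) * m) * volume L ≠ ⊤ :=
    ENNReal.mul_ne_top ENNReal.ofReal_ne_top hLfin
  have key2 := (ENNReal.add_le_add_iff_right hfin2).mp key
  rw [ENNReal.ofReal_mul (by positivity), ENNReal.ofReal_natCast, mul_assoc] at key2
  have hN1 : (Fintype.card Γ : ℝ≥0∞) ≠ 0 := by
    exact_mod_cast Fintype.card_ne_zero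
  exact (ENNReal.mul_le_mul_iff_right hN1 (ENNReal.natCast_ne_top _)).mp key2

/-! ### Walsh-Hadamard data -/

/-- the sign character of `ZMod 2` -/
noncomputable def whSg (a : ZMod 2) : ℝ := if a = 0 then 1 else -1

theorem zmod2_cases (a : ZMod 2) : a = 0 ∨ a = 1 := by
  revert a; decide

theorem whSg_add (a b : ZMod 2) : whSg (a + b) = whSg a * whSg b := by
  have h10 : (1 : ZMod 2) ≠ 0 := by decide
  have h11 : (1 : ZMod 2) + 1 = 0 := by decide
  rcases zmod2_cases a with rfl | rfl <;> rcases zmod2_cases b with rfl | rfl <;>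
    simp [whSg, h11]

theorem whSg_abs (a : ZMod 2) : whSg a = 1 ∨ whSg a = -1 := by
  unfold whSg
  split_ifs
  · left; rfl
  · right; rfl

/-- the characters -/
noncomputable def whS {d : ℕ} (x y : Fin d → ZMod 2) : ℝ := ∏ i, whSg (x i * y i)

theorem whS_abs {d : ℕ} (x y : Fin d → ZMod 2) : whS x y = 1 ∨ whS x y = -1 := by
  unfold whS
  induction (Finset.univ : Finset (Fin d)) using Finset.induction_on with
  | empty => left; simp
  | insert i s hi ih =>
    rw [Finset.prod_insert hi]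
    rcases ih with h | h <;> rcases whSg_abs (x i * y i) with h' | h' <;> rw [h, h'] <;> norm_num

theorem whS_symm {d : ℕ} (x y : Fin d → ZMod 2) : whS x y = whS y x := by
  unfold whS
  exact Finset.prod_congr rfl fun i _ => by rw [mul_comm]

theorem whS_add {d : ℕ} (x x' y : Fin d → ZMod 2) : whS (x + x') y = whS x y * whS x' y := by
  unfold whS
  rw [← Finset.prod_mul_distrib]
  exact Finset.prod_congr rfl fun i _ => by rw [Pi.add_apply, add_mul, whSg_add]

theorem whSg_sum (a : ZMod 2) : ∑ b : ZMod 2, whSg (a * b) = if a = 0 then 2 else 0 := by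
  have h : (Finset.univ : Finset (ZMod 2)) = {0, 1} := by decide
  rw [h, Finset.sum_pair (by decide)]
  rcases zmod2_cases a with rfl | rfl
  · simp [whSg]; norm_num
  · simp [whSg]

theorem whS_sum {d : ℕ} (x : Fin d → ZMod 2) :
    ∑ y, whS x y = if x = 0 then (2 : ℝ) ^ d else 0 := by
  unfold whS
  have h := Finset.prod_univ_sum (fun _ : Fin d => (Finset.univ : Finset (ZMod 2)))
    (fun i b => whSg (x i * b))
  rw [Fintype.piFinset_univ] at h
  rw [← h]
  simp only [whSg_sum]
  by_cases hx : x = 0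
  · subst hx
    simp
  · rw [if_neg hx]
    obtain ⟨i, hi⟩ := Function.ne_iff.1 hx
    exact Finset.prod_eq_zero (Finset.mem_univ i) (if_neg hi)

theorem wh_self {d : ℕ} (x : Fin d → ZMod 2) : x + x = 0 := by
  funext i
  have h : ∀ a : ZMod 2, a + a = 0 := by decide
  exact h (x i)

theorem exists_WH (d : ℕ) : Nonempty (WH (2 ^ d)) := by
  have hc : Fintype.card (Fin d → ZMod 2) = 2 ^ d := by
    simp [ZMod.card]
  let θ : (Fin d → ZMod 2) ≃ Fin (2 ^ d) := Fintype.equivFinOfCardEq hc
  refine ⟨{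
    s := fun i k => whS (θ.symm i) (θ.symm k)
    add := fun a i => θ (θ.symm a + θ.symm i)
    s_abs := fun i k => whS_abs _ _
    s_symm := fun i k => whS_symm _ _
    orth := ?_
    add_comm := fun a i => by rw [add_comm]
    add_add := ?_
    s_add := ?_ }⟩
  · intro i j
    have h1 : ∑ k, whS (θ.symm i) (θ.symm k) * whS (θ.symm j) (θ.symm k) =
        ∑ y, whS (θ.symm i + θ.symm j) y := by
      rw [← Equiv.sum_comp θ.symm]
      exact Finset.sum_congr rfl fun k _ => (whS_add _ _ _).symm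
    rw [h1, whS_sum]
    by_cases hij : i = j
    · subst hij
      rw [if_pos rfl, if_pos (wh_self _)]
      push_cast
      rfl
    · rw [if_neg hij, if_neg]
      intro h
      apply hij
      apply θ.symm.injective
      have h2 : θ.symm i + θ.symm j + θ.symm j = 0 + θ.symm j := by rw [h]
      rwa [add_assoc, wh_self, add_zero, zero_add] at h2
  · intro a i
    simp only [Equiv.symm_apply_apply]
    rw [← add_assoc, wh_self, zero_add, Equiv.apply_symm_apply]
  · intro a i k
    simp only [Equiv.symm_apply_apply]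
    exact whS_add _ _ _

/-! ### isometries -/

theorem add_invol {n : ℕ} (W : WH n) (a : Fin n) : Function.Involutive (W.add a) :=
  fun i => W.add_add a i

theorem sum_add_left {n : ℕ} (W : WH n) (a : Fin n) (f : Fin n → ℝ) :
    ∑ k, f (W.add a k) = ∑ k, f k :=
  Equiv.sum_comp (Function.Involutive.toPerm (W.add a) (add_invol W a)) f

theorem sum_add_right {n : ℕ} (W : WH n) (i : Fin n) (f : Fin n → ℝ) :
    ∑ a, f (W.add a i) = ∑ k, f k := by
  rw [← sum_add_left W i f]
  exact Finset.sum_congr rfl fun a _ => by rw [W.add_comm]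

theorem s_sq {n : ℕ} (W : WH n) (i k : Fin n) : W.s i k * W.s i k = 1 := by
  rcases W.s_abs i k with h | h <;> rw [h] <;> norm_num

/-- the linear map underlying `T a b` -/
noncomputable def Tlin {n : ℕ} (W : WH n) (a b : Fin n) : EE n →ₗ[ℝ] EE n where
  toFun x := WithLp.toLp 2 (fun k => W.s b (W.add a k) * x (W.add a k))
  map_add' x y := by
    ext k; simp [mul_add]
  map_smul' c x := by
    ext k; simp; ring

/-- the linear map underlying `H` -/
noncomputable def Hlin {n : ℕ} (W : WH n) : EE n →ₗ[ℝ] EE n where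
  toFun x := WithLp.toLp 2 (fun k => (Real.sqrt n)⁻¹ * ∑ j, W.s k j * x j)
  map_add' x y := by
    ext k; simp [mul_add, Finset.sum_add_distrib]
  map_smul' c x := by
    ext k; simp only [PiLp.smul_apply, smul_eq_mul, RingHom.id_apply, Finset.mul_sum]
    exact Finset.sum_congr rfl fun j _ => by ring

theorem Tlin_norm {n : ℕ} (W : WH n) (a b : Fin n) (x : EE n) : ‖Tlin W a b x‖ = ‖x‖ := by
  rw [EuclideanSpace.norm_eq, EuclideanSpace.norm_eq]
  congr 1
  rw [← sum_add_left W a (fun k => ‖x k‖ ^ 2)]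
  refine Finset.sum_congr rfl fun k _ => ?_
  show ‖W.s b (W.add a k) * x (W.add a k)‖ ^ 2 = _
  rcases W.s_abs b (W.add a k) with h | h <;> rw [h] <;> simp

theorem Hlin_norm {n : ℕ} (hn : 1 ≤ n) (W : WH n) (x : EE n) : ‖Hlin W x‖ = ‖x‖ := by
  have hn0 : (0:ℝ) < n := by exact_mod_cast hn
  rw [EuclideanSpace.norm_eq, EuclideanSpace.norm_eq]
  congr 1
  have h1 : ∀ k, ‖(Hlin W x) k‖ ^ 2 = (n:ℝ)⁻¹ * ∑ i, ∑ j, x i * x j * (W.s k i * W.s k j) := by
    intro k
    show ‖(Real.sqrt n)⁻¹ * ∑ j, W.s k j * x j‖ ^ 2 = _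
    rw [Real.norm_eq_abs, sq_abs, mul_pow, inv_pow, Real.sq_sqrt hn0.le, sq, Finset.sum_mul_sum]
    congr 1
    refine Finset.sum_congr rfl fun i _ => Finset.sum_congr rfl fun j _ => by ring
  have h2 : ∀ i, ‖x i‖ ^ 2 = x i * x i := by
    intro i; rw [Real.norm_eq_abs, sq_abs, sq]
  simp only [h1, h2]
  rw [← Finset.mul_sum, Finset.sum_comm]
  have h3 : ∀ i, ∑ k, ∑ j, x i * x j * (W.s k i * W.s k j) = n * (x i * x i) := by
    intro i
    rw [Finset.sum_comm]
    have h4 : ∀ j, ∑ k, x i * x j * (W.s k i * W.s k j) = x i * x j * (if i = j then (n:ℝ) else 0) := by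
      intro j
      rw [← Finset.mul_sum, ← W.orth i j]
      congr 1
      exact Finset.sum_congr rfl fun k _ => by rw [W.s_symm k i, W.s_symm k j]
    simp only [h4]
    simp
    ring
  simp only [h3]
  rw [← Finset.mul_sum]
  field_simp

/-- `T a b` -/
noncomputable def Tiso {n : ℕ} (W : WH n) (a b : Fin n) : EE n ≃ₗᵢ[ℝ] EE n :=
  LinearIsometry.toLinearIsometryEquiv ⟨Tlin W a b, Tlin_norm W a b⟩ rfl

/-- `H` -/
noncomputable def Hiso {n : ℕ} (hn : 1 ≤ n) (W : WH n) : EE n ≃ₗᵢ[ℝ] EE n :=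
  LinearIsometry.toLinearIsometryEquiv ⟨Hlin W, Hlin_norm hn W⟩ rfl

theorem Tiso_apply {n : ℕ} (W : WH n) (a b : Fin n) (x : EE n) (k : Fin n) :
    Tiso W a b x k = W.s b (W.add a k) * x (W.add a k) := rfl

theorem Hiso_apply {n : ℕ} (hn : 1 ≤ n) (W : WH n) (x : EE n) (k : Fin n) :
    Hiso hn W x k = (Real.sqrt n)⁻¹ * ∑ j, W.s k j * x j := rfl

/-- the isometries: `T a b` and `H` -/
theorem exists_T {n : ℕ} (hn : 1 ≤ n) (W : WH n) :
    ∃ (T : Fin n → Fin n → EE n ≃ₗᵢ[ℝ] EE n) (H : EE n ≃ₗᵢ[ℝ] EE n),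
      (∀ a b x k, T a b x k = W.s b (W.add a k) * x (W.add a k)) ∧
      (∀ x k, H x k = (Real.sqrt n)⁻¹ * ∑ j, W.s k j * x j) :=
  ⟨Tiso W, Hiso hn W, Tiso_apply W, Hiso_apply hn W⟩

/-- the unsigned vertices -/
noncomputable def vv {n : ℕ} (W : WH n) (t : Bool) (i : Fin n) : EE n :=
  if t then WithLp.toLp 2 (fun k => W.s i k)
      else WithLp.toLp 2 (fun k => if k = i then Real.sqrt n else 0)

theorem yy_eq {n : ℕ} (W : WH n) (e t : Bool) (i : Fin n) :
    yy W (e, t, i) = (if e then (1:ℝ) else -1) • vv W t i := rfl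

theorem Tiso_vv_false {n : ℕ} (W : WH n) (a b i : Fin n) :
    Tiso W a b (vv W false i) = W.s b i • vv W false (W.add a i) := by
  ext k
  rw [Tiso_apply]
  simp only [vv, Bool.false_eq_true, if_false, PiLp.smul_apply, smul_eq_mul]
  by_cases h : W.add a k = i
  · have h' : k = W.add a i := by rw [← h, W.add_add]
    rw [if_pos h, if_pos h', h]
  · have h' : ¬ (k = W.add a i) := by
      intro h2; apply h; rw [h2, W.add_add]
    rw [if_neg h, if_neg h']; simp

theorem Tiso_vv_true {n : ℕ} (W : WH n) (a b i : Fin n) :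
    Tiso W a b (vv W true i) = W.s a (W.add b i) • vv W true (W.add b i) := by
  ext k
  rw [Tiso_apply]
  simp only [vv, if_true, PiLp.smul_apply, smul_eq_mul]
  rw [← W.s_add b i (W.add a k), W.s_symm (W.add b i) (W.add a k), W.s_add a k (W.add b i),
    W.s_symm k]

theorem Hiso_vv_false {n : ℕ} (hn : 1 ≤ n) (W : WH n) (i : Fin n) :
    Hiso hn W (vv W false i) = vv W true i := by
  have hn0 : (0:ℝ) < n := by exact_mod_cast hn
  have hs : Real.sqrt n ≠ 0 := (Real.sqrt_pos.2 hn0).ne'
  ext k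
  rw [Hiso_apply]
  simp only [vv, Bool.false_eq_true, if_false, if_true]
  simp only [mul_ite, mul_zero, Finset.sum_ite_eq', Finset.mem_univ, if_true]
  rw [W.s_symm k i]
  field_simp

theorem Hiso_vv_true {n : ℕ} (hn : 1 ≤ n) (W : WH n) (i : Fin n) :
    Hiso hn W (vv W true i) = vv W false i := by
  have hn0 : (0:ℝ) < n := by exact_mod_cast hn
  have hs : Real.sqrt n ≠ 0 := (Real.sqrt_pos.2 hn0).ne'
  ext k
  rw [Hiso_apply]
  simp only [vv, Bool.false_eq_true, if_false, if_true]
  rw [W.orth k i]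
  by_cases h : k = i
  · rw [if_pos h, if_pos h]
    rw [inv_mul_eq_div, div_eq_iff hs, Real.mul_self_sqrt hn0.le]
  · rw [if_neg h, if_neg h]; simp

/-- the family of isometries -/
noncomputable def GT {n : ℕ} (hn : 1 ≤ n) (W : WH n) (γ : Fin n × Fin n × Bool) :
    EE n ≃ₗᵢ[ℝ] EE n :=
  if γ.2.2 then (Hiso hn W).trans (Tiso W γ.1 γ.2.1) else Tiso W γ.1 γ.2.1

theorem GT_vv {n : ℕ} (hn : 1 ≤ n) (W : WH n) (a b : Fin n) (ε t : Bool) (i : Fin n) :
    ∃ c : ℝ, (c = 1 ∨ c = -1) ∧
      GT hn W (a, b, ε) (vv W t i) =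
        c • vv W (xor t ε) (if xor t ε then W.add b i else W.add a i) := by
  cases ε <;> cases t
  · refine ⟨W.s b i, W.s_abs _ _, ?_⟩
    simp [GT, Tiso_vv_false]
  · refine ⟨W.s a (W.add b i), W.s_abs _ _, ?_⟩
    simp [GT, Tiso_vv_true]
  · refine ⟨W.s a (W.add b i), W.s_abs _ _, ?_⟩
    simp [GT, Hiso_vv_false, Tiso_vv_true]
  · refine ⟨W.s b i, W.s_abs _ _, ?_⟩
    simp [GT, Hiso_vv_true, Tiso_vv_false]

theorem GT_yy {n : ℕ} (hn : 1 ≤ n) (W : WH n) (a b : Fin n) (ε e t : Bool) (i : Fin n) :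
    ∃ e' : Bool, GT hn W (a, b, ε) (yy W (e, t, i)) =
        yy W (e', xor t ε, if xor t ε then W.add b i else W.add a i) := by
  obtain ⟨c, hc, h⟩ := GT_vv hn W a b ε t i
  rw [yy_eq, map_smul, h]
  rcases hc with hc | hc
  · refine ⟨e, ?_⟩
    rw [yy_eq, hc, one_smul]
  · refine ⟨!e, ?_⟩
    rw [yy_eq, hc]
    cases e <;> simp

/-- absolute value of the scalar product with a vertex -/
noncomputable def AB {n : ℕ} (W : WH n) (u : EE n) (t : Bool) (i : Fin n) : ℝ :=
  if t then |∑ k, W.s i k * u k| else Real.sqrt n * |u i|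

theorem abs_inner_yy {n : ℕ} (W : WH n) (u : EE n) (e t : Bool) (i : Fin n) :
    |inner ℝ (yy W (e, t, i)) u| = AB W u t i := by
  rw [yy_eq, inner_smul_left]
  have h0 : |(starRingEnd ℝ) (if e then (1:ℝ) else -1)| = 1 := by cases e <;> simp
  rw [abs_mul, h0, one_mul]
  cases t
  · simp only [vv, AB, Bool.false_eq_true, if_false]
    rw [PiLp.inner_apply]
    simp [abs_mul, mul_comm]
  · simp only [vv, AB, if_true]
    rw [PiLp.inner_apply]
    simp [mul_comm]

theorem sum_AB {n : ℕ} (hn : 1 ≤ n) (W : WH n) (u : EE n) :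
    ∑ i, AB W u false i + ∑ i, AB W u true i = 2 * n * mm W u := by
  have hn0 : (0:ℝ) < n := by exact_mod_cast hn
  simp only [AB, mm, Bool.false_eq_true, if_false, if_true]
  rw [← Finset.mul_sum]
  field_simp

theorem exists_Γ {n : ℕ} (hn : 1 ≤ n) (W : WH n) :
    ∃ T : (Fin n × Fin n × Bool) → EE n ≃ₗᵢ[ℝ] EE n,
      (∀ a b x k, T (a, b, false) x k = W.s b (W.add a k) * x (W.add a k)) ∧
      (∀ γ q, T γ (yy W q) ∈ range (yy W)) ∧
      (∀ u q, (Fintype.card (Fin n × Fin n × Bool) : ℝ) * mm W u ≤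
        ∑ γ, |inner ℝ (T γ (yy W q)) u|) ∧
      (∀ u γ, ∑ q, |inner ℝ (T γ (yy W q)) u| ≤ 4 * n * mm W u) := by
  refine ⟨GT hn W, ?_, ?_, ?_, ?_⟩
  · intro a b x k; exact Tiso_apply W a b x k
  · rintro ⟨a, b, ε⟩ ⟨e, t, i⟩
    obtain ⟨e', h⟩ := GT_yy hn W a b ε e t i
    rw [h]; exact ⟨_, rfl⟩
  · rintro u ⟨e, t, i⟩
    have key : ∀ a b ε, |inner ℝ (GT hn W (a, b, ε) (yy W (e, t, i))) u| =
        AB W u (xor t ε) (if xor t ε then W.add b i else W.add a i) := by
      intro a b ε
      obtain ⟨e', h⟩ := GT_yy hn W a b ε e t i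
      rw [h, abs_inner_yy]
    rw [Fintype.sum_prod_type]
    simp only [Fintype.sum_prod_type, key]
    have h2 : ∀ a b, ∑ ε : Bool, AB W u (xor t ε) (if xor t ε then W.add b i else W.add a i)
        = AB W u false (W.add a i) + AB W u true (W.add b i) := by
      intro a b
      cases t
      · simp [Fintype.sum_bool, add_comm]
      · simp [Fintype.sum_bool, add_comm]
    simp only [h2]
    simp only [Finset.sum_add_distrib, Finset.sum_const, Finset.card_univ, Fintype.card_fin,
      nsmul_eq_mul]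
    rw [← Finset.mul_sum, sum_add_right W i (AB W u false), sum_add_right W i (AB W u true),
      ← mul_add, sum_AB hn W u]
    simp only [Fintype.card_prod, Fintype.card_fin, Fintype.card_bool]
    push_cast
    apply le_of_eq
    ring
  · rintro u ⟨a, b, ε⟩
    have key : ∀ e t i, |inner ℝ (GT hn W (a, b, ε) (yy W (e, t, i))) u| =
        AB W u (xor t ε) (if xor t ε then W.add b i else W.add a i) := by
      intro e t i
      obtain ⟨e', h⟩ := GT_yy hn W a b ε e t i
      rw [h, abs_inner_yy]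
    rw [Fintype.sum_prod_type]
    simp only [Fintype.sum_prod_type, key]
    have h2 : ∑ t : Bool, ∑ i, AB W u (xor t ε) (if xor t ε then W.add b i else W.add a i)
        = 2 * n * mm W u := by
      rw [← sum_AB hn W u, ← sum_add_left W a (AB W u false), ← sum_add_left W b (AB W u true)]
      cases ε
      · simp [Fintype.sum_bool, add_comm]
      · simp [Fintype.sum_bool, add_comm]
    rw [h2]
    simp only [Finset.sum_const, Finset.card_univ, Fintype.card_bool, nsmul_eq_mul]
    push_cast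
    apply le_of_eq
    ring


/-! ### uncertainty principle -/

/-- uncertainty principle -/
theorem mm_ge {n : ℕ} (hn : 1 ≤ n) (W : WH n) (u : EE n) (hu : ‖u‖ = 1) :
    1 ≤ (mm W u) ^ 4 * n ∧ 0 < mm W u := by
  have hn0 : (0:ℝ) < n := by exact_mod_cast hn
  set A : ℝ := ∑ k, |u k| with hA
  set SB : ℝ := ∑ i, |∑ k, W.s i k * u k| with hSB
  have hu2 : ∑ k, (u k) ^ 2 = 1 := by
    have h := EuclideanSpace.norm_sq_eq u
    rw [hu] at h
    simp only [Real.norm_eq_abs, sq_abs] at h
    rw [← h]; norm_num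
  have hA0 : 0 ≤ A := Finset.sum_nonneg fun k _ => abs_nonneg _
  have hSB0 : 0 ≤ SB := Finset.sum_nonneg fun k _ => abs_nonneg _
  have hB : ∀ i, |∑ k, W.s i k * u k| ≤ A := by
    intro i
    refine (Finset.abs_sum_le_sum_abs _ _).trans (Finset.sum_le_sum fun k _ => ?_)
    rw [abs_mul]
    rcases W.s_abs i k with h | h <;> rw [h] <;> simp
  have hsq : ∑ i, (∑ k, W.s i k * u k) ^ 2 = n := by
    have h1 : ∀ i, (∑ k, W.s i k * u k) ^ 2 =
        ∑ k, ∑ l, (u k * u l) * (W.s k i * W.s l i) := by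
      intro i
      rw [sq, Finset.sum_mul_sum]
      refine Finset.sum_congr rfl fun k _ => Finset.sum_congr rfl fun l _ => ?_
      rw [W.s_symm i k, W.s_symm i l]; ring
    simp only [h1]
    rw [Finset.sum_comm]
    have h2 : ∀ k, ∑ i, ∑ l, (u k * u l) * (W.s k i * W.s l i) = n * (u k) ^ 2 := by
      intro k
      rw [Finset.sum_comm]
      have h3 : ∀ l, ∑ i, (u k * u l) * (W.s k i * W.s l i) =
          if k = l then (u k * u l) * n else 0 := by
        intro l
        rw [← Finset.mul_sum, W.orth k l]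
        split_ifs <;> simp
      simp only [h3]
      rw [Finset.sum_ite_eq]
      simp only [Finset.mem_univ, if_true]
      ring
    simp only [h2]
    rw [← Finset.mul_sum, hu2, mul_one]
  have hn_le : (n:ℝ) ≤ A * SB := by
    rw [← hsq, hSB, Finset.mul_sum]
    refine Finset.sum_le_sum fun i _ => ?_
    rw [← sq_abs, sq]
    exact mul_le_mul_of_nonneg_right (hB i) (abs_nonneg _)
  have hs0 : 0 < Real.sqrt n := Real.sqrt_pos.mpr hn0
  have hss : Real.sqrt n * Real.sqrt n = n := Real.mul_self_sqrt hn0.le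
  have hmm : mm W u * (2 * n) = Real.sqrt n * A + SB := by
    rw [mm, hA, hSB]; field_simp
  have hkey : (mm W u) ^ 2 * n ≥ Real.sqrt n := by
    have h1 : (mm W u * (2 * n)) ^ 2 ≥ 4 * (Real.sqrt n * n) := by
      rw [hmm]
      have h2 : (Real.sqrt n * A + SB) ^ 2 ≥ 4 * (Real.sqrt n * (A * SB)) := by
        nlinarith [sq_nonneg (Real.sqrt n * A - SB)]
      have h3 : Real.sqrt n * n ≤ Real.sqrt n * (A * SB) :=
        mul_le_mul_of_nonneg_left hn_le hs0.le
      linarith
    have h2 : (mm W u) ^ 2 * n * (4 * n) ≥ Real.sqrt n * (4 * n) := by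
      nlinarith
    exact le_of_mul_le_mul_right h2 (by positivity)
  have hmm0 : 0 ≤ mm W u := by
    rw [mm]; positivity
  refine ⟨?_, ?_⟩
  · have h1 : (n:ℝ) ≤ ((mm W u) ^ 2 * n) ^ 2 := by
      calc (n:ℝ) = Real.sqrt n * Real.sqrt n := hss.symm
        _ ≤ ((mm W u) ^ 2 * n) * ((mm W u) ^ 2 * n) :=
            mul_le_mul hkey hkey hs0.le (by positivity)
        _ = _ := by ring
    have h2 : 1 * (n:ℝ) ≤ ((mm W u) ^ 4 * n) * n := by
      calc 1 * (n:ℝ) = n := one_mul _
        _ ≤ _ := h1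
        _ = _ := by ring
    exact le_of_mul_le_mul_right h2 hn0
  · rcases hmm0.lt_or_eq with h | h
    · exact h
    · exfalso
      rw [← h] at hkey
      have : Real.sqrt n ≤ 0 := by simpa using hkey
      linarith

/-! ### second moments -/

theorem parseval {n : ℕ} (W : WH n) (z : Fin n → ℝ) :
    ∑ i, (∑ k, W.s i k * z k) ^ 2 = n * ∑ k, z k ^ 2 := by
  have h1 : ∀ i, (∑ k, W.s i k * z k) ^ 2 = ∑ k, ∑ l, (z k * z l) * (W.s k i * W.s l i) := by
    intro i
    rw [sq, Finset.sum_mul_sum]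
    refine Finset.sum_congr rfl fun k _ => Finset.sum_congr rfl fun l _ => ?_
    rw [W.s_symm i k, W.s_symm i l]
    ring
  simp_rw [h1]
  rw [Finset.sum_comm]
  have h2 : ∀ k, ∑ i, ∑ l, (z k * z l) * (W.s k i * W.s l i) = n * z k ^ 2 := by
    intro k
    rw [Finset.sum_comm]
    have h3 : ∀ l, ∑ i, (z k * z l) * (W.s k i * W.s l i) = (z k * z l) * (if k = l then (n : ℝ) else 0) := by
      intro l
      rw [← Finset.mul_sum, W.orth k l]
    simp_rw [h3]
    simp
    ring
  simp_rw [h2]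
  rw [Finset.mul_sum]

theorem inner_true {n : ℕ} (W : WH n) (z : EE n) (e : Bool) (i : Fin n) :
    inner ℝ z (yy W (e, true, i)) = (if e then (1:ℝ) else -1) * ∑ k, W.s i k * z k := by
  cases e <;> simp [yy, PiLp.inner_apply]

theorem inner_false {n : ℕ} (W : WH n) (z : EE n) (e : Bool) (i : Fin n) :
    inner ℝ z (yy W (e, false, i)) = (if e then (1:ℝ) else -1) * (Real.sqrt n * z i) := by
  cases e <;> simp [yy, PiLp.inner_apply]

theorem sum_inner_sq {n : ℕ} (W : WH n) (z : EE n) :
    ∑ q, (inner ℝ z (yy W q)) ^ 2 = 4 * n * ‖z‖ ^ 2 := by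
  have hn : ‖z‖ ^ 2 = ∑ k, z k ^ 2 := EuclideanSpace.real_norm_sq_eq z
  have h0 : ∑ q : QQ n, (inner ℝ z (yy W q)) ^ 2
      = ∑ e : Bool, ∑ b : Bool, ∑ i : Fin n, (inner ℝ z (yy W (e, b, i))) ^ 2 := by
    rw [Fintype.sum_prod_type]
    refine Finset.sum_congr rfl fun e _ => ?_
    rw [Fintype.sum_prod_type]
  rw [h0, Fintype.sum_bool, Fintype.sum_bool, Fintype.sum_bool]
  simp_rw [inner_true, inner_false]
  have hp := parseval W (fun k => z k)
  simp only at hp
  have hs : ∀ i, (Real.sqrt n * z i) ^ 2 = n * z i ^ 2 := by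
    intro i
    rw [mul_pow, Real.sq_sqrt (Nat.cast_nonneg n)]
  simp only [if_true, one_mul, Bool.false_eq_true, if_false, neg_mul, neg_sq]
  simp_rw [hs]
  rw [hp, ← Finset.mul_sum, hn]
  ring

/-- Bessel: the vertices form a tight frame -/
theorem frame_le {n : ℕ} (hn : 1 ≤ n) (W : WH n) (w : QQ n → ℝ) :
    ‖∑ q, w q • yy W q‖ ^ 2 ≤ 4 * n * ∑ q, (w q) ^ 2 := by
  set z : EE n := ∑ q, w q • yy W q with hz
  have h1 : ‖z‖ ^ 2 = ∑ q, w q * inner ℝ z (yy W q) := by
    rw [← real_inner_self_eq_norm_sq]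
    nth_rewrite 2 [hz]
    rw [inner_sum]
    simp_rw [real_inner_smul_right]
  have h2 : (∑ q, w q * inner ℝ z (yy W q)) ^ 2 ≤ (∑ q, (w q) ^ 2) * ∑ q, (inner ℝ z (yy W q)) ^ 2 :=
    Finset.sum_mul_sq_le_sq_mul_sq _ _ _
  rw [sum_inner_sq, ← h1] at h2
  have h3 : 0 ≤ ‖z‖ ^ 2 := by positivity
  rcases h3.eq_or_lt with h4 | h4
  · rw [← h4]
    have : 0 ≤ ∑ q, (w q) ^ 2 := Finset.sum_nonneg fun q _ => sq_nonneg _
    positivity
  · have h5 : ‖z‖ ^ 2 * ‖z‖ ^ 2 ≤ (4 * n * ∑ q, (w q) ^ 2) * ‖z‖ ^ 2 := by nlinarith [h2]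
    exact le_of_mul_le_mul_right h5 h4

theorem norm_moment {n : ℕ} (hn : 1 ≤ n) (W : WH n) :
    ∫⁻ z in convexHull ℝ (range (yy W)), ENNReal.ofReal (‖z‖ ^ 2) ≤
      ENNReal.ofReal 32 * volume (convexHull ℝ (range (yy W))) := by
  set L := convexHull ℝ (range (yy W)) with hL
  have hLc : IsCompact L := (Set.finite_range (yy W)).isCompact_convexHull (𝕜 := ℝ)
  have hLm : MeasurableSet L := hLc.measurableSet
  have hpt : ∀ z ∈ L, ENNReal.ofReal (‖z‖ ^ 2) ≤
      ENNReal.ofReal (4 * n) * ∑ q, GG L (yy W q) z := by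
    intro z hz
    obtain ⟨w, hw0, hw1, hwz⟩ := exists_weights (yy W) z hz
    have h1 := frame_le hn W w
    rw [hwz] at h1
    calc ENNReal.ofReal (‖z‖ ^ 2) ≤ ENNReal.ofReal (4 * n * ∑ q, (w q) ^ 2) :=
          ENNReal.ofReal_le_ofReal h1
      _ = ENNReal.ofReal (4 * n) * ∑ q, ENNReal.ofReal ((w q) ^ 2) := by
          rw [ENNReal.ofReal_mul (by positivity), ENNReal.ofReal_sum_of_nonneg]
          intro q _
          positivity
      _ ≤ _ := by
          gcongr with q
          have := GG_ge (yy W) w hw0 hw1 q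
          rw [hwz] at this
          exact this
  calc ∫⁻ z in L, ENNReal.ofReal (‖z‖ ^ 2)
      ≤ ∫⁻ z in L, ENNReal.ofReal (4 * n) * ∑ q, GG L (yy W q) z :=
        setLIntegral_mono' hLm hpt
    _ ≤ ∫⁻ z, ENNReal.ofReal (4 * n) * ∑ q, GG L (yy W q) z := setLIntegral_le_lintegral _ _
    _ = ENNReal.ofReal (4 * n) * ∑ q, ∫⁻ z, GG L (yy W q) z := by
        rw [lintegral_const_mul]
        · rw [lintegral_finsetSum]
          intro q _
          exact GG_measurable L hLc.isClosed _
        · exact Finset.measurable_fun_sum _ fun q _ => GG_measurable L hLc.isClosed _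
    _ ≤ ENNReal.ofReal (4 * n) * ∑ q : QQ n, ENNReal.ofReal (2 / (n : ℝ) ^ 2) * volume L := by
        gcongr with q
        exact lintegral_GG hn L hLc.isClosed _
    _ = ENNReal.ofReal 32 * volume L := by
        rw [Finset.sum_const, Finset.card_univ]
        have hc : Fintype.card (QQ n) = 4 * n := by simp [QQ]; ring
        rw [hc, nsmul_eq_mul, ← mul_assoc, ← mul_assoc]
        congr 1
        have hn' : (0:ℝ) < n := by exact_mod_cast hn
        have : ((4 * n : ℕ) : ENNReal) = ENNReal.ofReal (4 * n) := by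
          rw [← ENNReal.ofReal_natCast]
          push_cast
          rfl
        rw [this, ← ENNReal.ofReal_mul (by positivity), ← ENNReal.ofReal_mul (by positivity)]
        congr 1
        field_simp
        ring


theorem wh_sum_reindex {n : ℕ} (W : WH n) (a : Fin n) (f : Fin n → ℝ) :
    ∑ k, f (W.add a k) = ∑ k, f k :=
  Finset.sum_nbij' (fun k => W.add a k) (fun k => W.add a k) (by simp) (by simp)
    (fun k _ => W.add_add a k) (fun k _ => W.add_add a k) (fun k _ => rfl)

theorem wh_parseval {n : ℕ} (W : WH n) (c : Fin n → ℝ) :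
    ∑ b, (∑ j, W.s b j * c j) ^ 2 = n * ∑ j, c j ^ 2 := by
  have h1 : ∀ b, (∑ j, W.s b j * c j) ^ 2 = ∑ i, ∑ j, (W.s b i * W.s b j) * (c i * c j) := by
    intro b
    rw [sq, Finset.sum_mul_sum]
    refine Finset.sum_congr rfl fun i _ => Finset.sum_congr rfl fun j _ => ?_
    ring
  simp_rw [h1]
  rw [Finset.sum_comm]
  have h2 : ∀ i, ∑ b, ∑ j, (W.s b i * W.s b j) * (c i * c j) = n * c i ^ 2 := by
    intro i
    rw [Finset.sum_comm]
    have h3 : ∀ j, ∑ b, (W.s b i * W.s b j) * (c i * c j) =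
        (if i = j then (n : ℝ) else 0) * (c i * c j) := by
      intro j
      rw [← Finset.sum_mul, ← W.orth i j]
      congr 1
      refine Finset.sum_congr rfl fun b _ => ?_
      rw [W.s_symm b i, W.s_symm b j]
    simp_rw [h3]
    simp only [ite_mul, zero_mul, Finset.sum_ite_eq, Finset.mem_univ, if_true]
    ring
  rw [Finset.sum_congr rfl fun i _ => h2 i, ← Finset.mul_sum]

theorem wh_pointwise {n : ℕ} (W : WH n)
    (T : Fin n → Fin n → EE n ≃ₗᵢ[ℝ] EE n)
    (hT : ∀ a b x k, T a b x k = W.s b (W.add a k) * x (W.add a k)) (u z : EE n)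
    (hu : ‖u‖ = 1) :
    ∑ a, ∑ b, (inner ℝ (T a b z) u : ℝ) ^ 2 = n * ‖z‖ ^ 2 := by
  have h1 : ∀ a b, (inner ℝ (T a b z) u : ℝ) = ∑ j, W.s b j * (z j * u (W.add a j)) := by
    intro a b
    rw [PiLp.inner_apply]
    rw [← wh_sum_reindex W a (fun j => W.s b j * (z j * u (W.add a j)))]
    refine Finset.sum_congr rfl fun k _ => ?_
    rw [hT, W.add_add]
    simp only [RCLike.inner_apply, conj_trivial]
    ring
  simp_rw [h1, wh_parseval]
  rw [← Finset.mul_sum, Finset.sum_comm]
  congr 1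
  have h2 : ∀ j, ∑ a, (z j * u (W.add a j)) ^ 2 = z j ^ 2 := by
    intro j
    have h3 : ∑ a, u (W.add a j) ^ 2 = 1 := by
      have h4 : ∑ a, u (W.add a j) ^ 2 = ∑ a, u (W.add j a) ^ 2 :=
        Finset.sum_congr rfl fun a _ => by rw [W.add_comm]
      rw [h4, wh_sum_reindex W j (fun k => u k ^ 2)]
      have h5 := EuclideanSpace.norm_sq_eq u
      rw [hu] at h5
      simp only [Real.norm_eq_abs, sq_abs] at h5
      linarith
    simp_rw [mul_pow]
    rw [← Finset.mul_sum, h3, mul_one]
  rw [Finset.sum_congr rfl fun j _ => h2 j, EuclideanSpace.norm_sq_eq]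
  simp only [Real.norm_eq_abs, sq_abs]

/-- isotropy -/
theorem second_moment {n : ℕ} (hn : 1 ≤ n) (W : WH n)
    (T : Fin n → Fin n → EE n ≃ₗᵢ[ℝ] EE n)
    (hT : ∀ a b x k, T a b x k = W.s b (W.add a k) * x (W.add a k))
    (hT' : ∀ a b q, T a b (yy W q) ∈ range (yy W)) (u : EE n) (hu : ‖u‖ = 1) :
    ∫⁻ z in convexHull ℝ (range (yy W)), ENNReal.ofReal ((inner ℝ z u) ^ 2) ≤
      ENNReal.ofReal (32 / n) * volume (convexHull ℝ (range (yy W))) := by
  have hfin : (range (yy W)).Finite := finite_range _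
  have himg : ∀ a b, T a b '' range (yy W) = range (yy W) := by
    intro a b
    have hsub : T a b '' range (yy W) ⊆ range (yy W) := by
      rintro _ ⟨_, ⟨q, rfl⟩, rfl⟩
      exact hT' a b q
    have hinj : Function.Injective (T a b) := (T a b).injective
    exact Set.eq_of_subset_of_ncard_le hsub
      (by rw [Set.ncard_image_of_injective _ hinj]) hfin
  have hL : ∀ a b, T a b '' convexHull ℝ (range (yy W)) = convexHull ℝ (range (yy W)) := by
    intro a b
    have h := ((T a b).toLinearEquiv : EE n →ₗ[ℝ] EE n).image_convexHull (range (yy W))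
    have h2 : (((T a b).toLinearEquiv : EE n →ₗ[ℝ] EE n) : EE n → EE n) = T a b := rfl
    rw [h2, himg a b] at h
    exact h
  have hpre : ∀ a b, T a b ⁻¹' convexHull ℝ (range (yy W)) = convexHull ℝ (range (yy W)) := by
    intro a b
    conv_lhs => rw [← hL a b]
    exact Set.preimage_image_eq _ (T a b).injective
  set L := convexHull ℝ (range (yy W)) with hLdef
  have hLmeas : MeasurableSet L := (Set.Finite.isCompact_convexHull (𝕜 := ℝ) hfin).measurableSet
  set I := ∫⁻ z in L, ENNReal.ofReal ((inner ℝ z u : ℝ) ^ 2) with hI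
  have hmeas : ∀ a b, Measurable fun z : EE n => ENNReal.ofReal ((inner ℝ (T a b z) u : ℝ) ^ 2) := by
    intro a b
    apply Measurable.ennreal_ofReal
    apply Continuous.measurable
    have := (T a b).continuous
    fun_prop
  have hmeas0 : Measurable fun z : EE n => ENNReal.ofReal ((inner ℝ z u : ℝ) ^ 2) := by
    apply Measurable.ennreal_ofReal
    apply Continuous.measurable
    fun_prop
  have hinv : ∀ a b, ∫⁻ z in L, ENNReal.ofReal ((inner ℝ (T a b z) u : ℝ) ^ 2) = I := by
    intro a b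
    have h := (T a b).measurePreserving.setLIntegral_comp_preimage hLmeas hmeas0
    rw [hpre a b] at h
    exact h
  have hsum : ∑ a : Fin n, ∑ b : Fin n,
      ∫⁻ z in L, ENNReal.ofReal ((inner ℝ (T a b z) u : ℝ) ^ 2) =
      ENNReal.ofReal n * ∫⁻ z in L, ENNReal.ofReal (‖z‖ ^ 2) := by
    rw [← lintegral_const_mul _ (by fun_prop)]
    have h1 : ∀ a : Fin n, ∑ b : Fin n,
        ∫⁻ z in L, ENNReal.ofReal ((inner ℝ (T a b z) u : ℝ) ^ 2) =
        ∫⁻ z in L, ∑ b : Fin n, ENNReal.ofReal ((inner ℝ (T a b z) u : ℝ) ^ 2) := by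
      intro a
      rw [lintegral_finset_sum _ fun b _ => hmeas a b]
    simp_rw [h1]
    rw [← lintegral_finset_sum _ fun a _ => Finset.measurable_sum _ fun b _ => hmeas a b]
    refine lintegral_congr fun z => ?_
    rw [← ENNReal.ofReal_mul (by positivity), ← wh_pointwise W T hT u z hu,
      ENNReal.ofReal_sum_of_nonneg fun a _ => Finset.sum_nonneg fun b _ => sq_nonneg _]
    refine Finset.sum_congr rfl fun a _ => ?_
    rw [ENNReal.ofReal_sum_of_nonneg fun b _ => sq_nonneg _]
  simp_rw [hinv] at hsum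
  simp only [Finset.sum_const, Finset.card_univ, Fintype.card_fin, nsmul_eq_mul] at hsum
  have hn0 : (n : ℝ≥0∞) ≠ 0 := by
    simp only [ne_eq, Nat.cast_eq_zero]; omega
  have hnt : (n : ℝ≥0∞) ≠ ⊤ := ENNReal.natCast_ne_top n
  have h5 : (n : ℝ≥0∞) * I ≤ ENNReal.ofReal 32 * volume L := by
    have h6 : (n : ℝ≥0∞) * (n * I) ≤ n * (ENNReal.ofReal 32 * volume L) := by
      rw [hsum, ENNReal.ofReal_natCast]
      gcongr
      exact norm_moment hn W
    exact (ENNReal.mul_le_mul_iff_right hn0 hnt).mp h6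
  have h7 : ENNReal.ofReal (32 / n) = (n : ℝ≥0∞)⁻¹ * ENNReal.ofReal 32 := by
    rw [ENNReal.ofReal_div_of_pos (by positivity), ENNReal.ofReal_natCast, ENNReal.div_eq_inv_mul]
  rw [h7, mul_assoc]
  calc I = (n : ℝ≥0∞)⁻¹ * (n * I) := by
        rw [← mul_assoc, ENNReal.inv_mul_cancel hn0 hnt, one_mul]
    _ ≤ _ := by gcongr

/-! ### polars -/

/-- the sections of `BB` lie in the polar of the Steiner symmetral -/
theorem steiner_polar {n : ℕ} {Q : Type} [Fintype Q] (y : Q → EE n) (u : EE n) (hu : ‖u‖ = 1)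
    (K : Set (EE n)) (hK : IsCompact K) (hKy : ∀ x ∈ K, ∀ q, inner ℝ x (y q) ≤ (1:ℝ))
    (x : EE n) (hx : (x - (inner ℝ x u) • u, inner ℝ x u) ∈ BB y u) :
    x ∈ {y : EuclideanSpace ℝ (Fin n) |
            ∀ x ∈ {z : EuclideanSpace ℝ (Fin n) |
                (∃ s : ℝ, z + s • u ∈ K) ∧
                ENNReal.ofReal (2 * |inner ℝ z u|) ≤
                  MeasureTheory.volume {s : ℝ | z + s • u ∈ K}},
              inner ℝ x y ≤ (1 : ℝ)} := by
  rintro w ⟨⟨s0, hs0⟩, hvol⟩
  set t : ℝ := inner ℝ w u with ht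
  set S : Set ℝ := {s : ℝ | w + s • u ∈ K} with hS
  have hcont : Continuous (fun s : ℝ => w + s • u) := by fun_prop
  have hSclosed : IsClosed S := hK.isClosed.preimage hcont
  obtain ⟨R, hR⟩ := hK.isBounded.exists_norm_le
  have hSbd : Bornology.IsBounded S := by
    rw [isBounded_iff_forall_norm_le]
    refine ⟨R + ‖w‖, fun s hs => ?_⟩
    have h1 := hR _ hs
    calc ‖s‖ = ‖s • u‖ := by rw [norm_smul, hu, mul_one]
      _ = ‖(w + s • u) - w‖ := by rw [add_sub_cancel_left]
      _ ≤ ‖w + s • u‖ + ‖w‖ := norm_sub_le _ _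
      _ ≤ _ := by linarith
  have hScomp : IsCompact S := Metric.isCompact_of_isClosed_isBounded hSclosed hSbd
  have hSne : S.Nonempty := ⟨s0, hs0⟩
  have hα : sSup S ∈ S := hScomp.sSup_mem hSne
  have hβ : sInf S ∈ S := hScomp.sInf_mem hSne
  set α := sSup S
  set β := sInf S
  have hsub : S ⊆ Icc β α := fun s hs =>
    ⟨csInf_le hScomp.bddBelow hs, le_csSup hScomp.bddAbove hs⟩
  have hβα : β ≤ α := (hsub hβ).2
  have hv : volume S ≤ ENNReal.ofReal (α - β) := by
    refine (measure_mono hsub).trans ?_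
    rw [Real.volume_Icc]
  have ht2 : 2 * |t| ≤ α - β := by
    have := hvol.trans hv
    rwa [ENNReal.ofReal_le_ofReal_iff (by linarith)] at this
  have ht3 : t ≤ (α - β) / 2 := by
    have := le_abs_self t
    linarith
  have ht4 : - t ≤ (α - β) / 2 := by
    have := neg_abs_le t
    linarith
  have huu : inner ℝ u u = (1 : ℝ) := by
    rw [real_inner_self_eq_norm_sq, hu]; norm_num
  set w0 := w - t • u with hw0
  have hw0u : inner ℝ w0 u = (0 : ℝ) := by
    rw [hw0, inner_sub_left, real_inner_smul_left, huu, ← ht]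
    ring
  have hhalf : BB y u ⊆ {p : EE n × ℝ | inner ℝ w0 p.1 + ((α + β) / 2 + t) * inner ℝ p.1 u + t * p.2 ≤ 1} := by
    unfold BB
    apply convexHull_min
    · rintro _ ⟨⟨q, ε⟩, rfl⟩
      have h1 : inner ℝ w (y q) + α * inner ℝ u (y q) ≤ 1 := by
        have := hKy _ hα q
        rwa [inner_add_left, real_inner_smul_left] at this
      have h2 : inner ℝ w (y q) + β * inner ℝ u (y q) ≤ 1 := by
        have := hKy _ hβ q
        rwa [inner_add_left, real_inner_smul_left] at this
      have h3 : inner ℝ w0 (y q) = inner ℝ w (y q) - t * inner ℝ u (y q) := by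
        rw [hw0, inner_sub_left, real_inner_smul_left]
      have h4 : inner ℝ (y q) u = inner ℝ u (y q) := real_inner_comm _ _
      simp only [vx, Set.mem_ofPred_eq]
      rw [h3, h4]
      set cc := inner ℝ u (y q)
      rcases le_total 0 cc with hc | hc
      · cases ε
        · simp only [Bool.false_eq_true, if_false]
          nlinarith
        · simp only [if_true]
          nlinarith
      · cases ε
        · simp only [Bool.false_eq_true, if_false]
          nlinarith
        · simp only [if_true]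
          nlinarith
    · apply convex_halfSpace_le
      constructor
      · intro p p'
        simp only [Prod.fst_add, Prod.snd_add, inner_add_left, inner_add_right]
        ring
      · intro c p
        simp only [Prod.smul_fst, Prod.smul_snd, real_inner_smul_left, real_inner_smul_right,
          smul_eq_mul]
        ring
  have h5 := hhalf hx
  simp only [Set.mem_ofPred_eq] at h5
  have h6 : inner ℝ (x - (inner ℝ x u) • u) u = (0 : ℝ) := by
    rw [inner_sub_left, real_inner_smul_left, huu]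
    ring
  have h7 : inner ℝ w0 (x - (inner ℝ x u) • u) = inner ℝ w0 x := by
    rw [inner_sub_right, real_inner_smul_right, hw0u]
    ring
  have h8 : inner ℝ w x = inner ℝ w0 x + t * inner ℝ x u := by
    rw [hw0, inner_sub_left, real_inner_smul_left, real_inner_comm u x]
    ring
  rw [h6, h7] at h5
  rw [h8]
  linarith


/-- bipolar theorem for a finite family whose convex hull contains 0 -/
theorem polar_sub {n : ℕ} {Q : Type} [Finite Q] (y : Q → EE n)
    (h0 : (0 : EE n) ∈ convexHull ℝ (range y)) (z : EE n)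
    (hz : ∀ x ∈ {x : EE n | ∀ q, inner ℝ x (y q) ≤ (1:ℝ)}, inner ℝ x z ≤ (1 : ℝ)) :
    z ∈ convexHull ℝ (range y) := by
  by_contra hzL
  have hcomp : IsCompact (convexHull ℝ (range y)) := (Set.finite_range y).isCompact_convexHull ℝ
  obtain ⟨f, r, hf, hr⟩ := geometric_hahn_banach_closed_point (convex_convexHull ℝ (range y))
    hcomp.isClosed hzL
  have hr0 : 0 < r := by
    have := hf 0 h0
    simpa using this
  have hx0 : ∀ v, inner ℝ ((InnerProductSpace.toDual ℝ (EE n)).symm f) v = f v :=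
    fun v => InnerProductSpace.toDual_symm_apply
  have h1 := hz (r⁻¹ • ((InnerProductSpace.toDual ℝ (EE n)).symm f)) (by
    intro q
    rw [real_inner_smul_left, hx0]
    have := hf (y q) (subset_convexHull ℝ _ ⟨q, rfl⟩)
    rw [inv_mul_le_iff₀ hr0]
    linarith)
  rw [real_inner_smul_left, hx0, inv_mul_le_iff₀ hr0] at h1
  linarith


/-! ### main inequality -/

lemma yy_neg {n : ℕ} (W : WH n) (q : QQ n) : - yy W q = yy W (!q.1, q.2.1, q.2.2) := by
  obtain ⟨e, t, i⟩ := q
  cases e <;> cases t <;> simp [yy]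

lemma BB_symm {n : ℕ} (W : WH n) (u : EE n) : ∀ p ∈ BB (yy W) u, -p ∈ BB (yy W) u := by
  intro p hp
  have h1 : -p ∈ - BB (yy W) u := by simpa using hp
  have h2 : - range (vx (yy W) u) = range (vx (yy W) u) := by
    ext x
    simp only [Set.mem_neg, mem_range]
    constructor
    · rintro ⟨⟨q, b⟩, h⟩
      refine ⟨((!q.1, q.2.1, q.2.2), b), ?_⟩
      rw [← neg_eq_iff_eq_neg] at h
      rw [← h]
      unfold vx
      simp only
      rw [← yy_neg, inner_neg_left, mul_neg]
      rfl
    · rintro ⟨⟨q, b⟩, h⟩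
      refine ⟨((!q.1, q.2.1, q.2.2), b), ?_⟩
      rw [← h]
      unfold vx
      simp only
      rw [← yy_neg, inner_neg_left, mul_neg]
      rfl
  unfold BB at *
  rw [← convexHull_neg, h2] at h1
  exact h1

lemma BB_fst {n : ℕ} (W : WH n) (u : EE n) (p : EE n × ℝ) (hp : p ∈ BB (yy W) u) :
    p.1 ∈ convexHull ℝ (range (yy W)) := by
  have h : BB (yy W) u ⊆ (LinearMap.fst ℝ (EE n) ℝ) ⁻¹' (convexHull ℝ (range (yy W))) := by
    refine convexHull_min ?_ ((convex_convexHull ℝ _).linear_preimage _)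
    rintro x ⟨q, rfl⟩
    exact subset_convexHull ℝ _ ⟨q.1, rfl⟩
  exact h hp

theorem main_ineq {n : ℕ} (hn : 1 ≤ n) (W : WH n) (u : EE n) (hu : ‖u‖ = 1) :
    ENNReal.ofReal (3 / 512 * (Real.sqrt n * mm W u)) * volume (convexHull ℝ (range (yy W))) ≤
      volume {x : EE n | (x - (inner ℝ x u) • u, inner ℝ x u) ∈ BB (yy W) u} := by
  obtain ⟨T, hT0, hT, h1, h2⟩ := exists_Γ hn W
  obtain ⟨hm4, hm⟩ := mm_ge hn W u hu
  set m := mm W u with hmdef
  set L := convexHull ℝ (range (yy W)) with hL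
  set μ := ((volume : Measure (EE n)).prod (volume : Measure ℝ)) with hμ
  have hn0 : (0:ℝ) < n := by exact_mod_cast hn
  have hsn : 0 < Real.sqrt n := Real.sqrt_pos.2 hn0
  have : Nonempty (Fin n × Fin n × Bool) := ⟨(⟨0, hn⟩, ⟨0, hn⟩, true)⟩
  have hLc : IsCompact L := (Set.finite_range _).isCompact_convexHull ℝ
  have hBc : IsCompact (BB (yy W) u) := BB_compact _ _
  set B := BB (yy W) u ∩ {p | |p.2| ≤ 16 * m} with hB
  have hclosed : IsClosed {p : EE n × ℝ | |p.2| ≤ 16 * m} := by
    apply isClosed_le <;> fun_prop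
  have hBm : MeasurableSet B := (hBc.isClosed.inter hclosed).measurableSet
  have hBconv : Convex ℝ B := by
    refine (convex_convexHull ℝ _).inter ?_
    intro x hx y hy a b ha hb hab
    simp only [Set.mem_ofPred_eq, Prod.snd_add, Prod.smul_snd, smul_eq_mul] at *
    calc |a * x.2 + b * y.2| ≤ |a * x.2| + |b * y.2| := abs_add_le _ _
      _ = a * |x.2| + b * |y.2| := by rw [abs_mul, abs_mul, abs_of_nonneg ha, abs_of_nonneg hb]
      _ ≤ a * (16 * m) + b * (16 * m) := by gcongr
      _ = 16 * m := by rw [← add_mul, hab, one_mul]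
  have hBsym : ∀ p ∈ B, -p ∈ B := by
    intro p hp
    refine ⟨BB_symm W u p hp.1, ?_⟩
    have := hp.2
    simpa using this
  have key1 := vol_lower hn (yy W) u T hT m hm (h1 u) (h2 u)
  set a : ℝ := 64 / Real.sqrt n with ha
  have ha0 : 0 < a := by positivity
  have key2 := slab u hu B hBm hBconv hBsym a ha0.le
  set V := volume {x : EE n | (x - (inner ℝ x u) • u, inner ℝ x u) ∈ BB (yy W) u} with hV
  have hVle : volume {x : EE n | (x - (inner ℝ x u) • u, inner ℝ x u) ∈ B} ≤ V := by
    apply measure_mono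
    intro x hx
    exact hx.1
  have hSm : MeasurableSet {p : EE n × ℝ | |inner ℝ p.1 u| ≤ a} := by
    have : IsClosed {p : EE n × ℝ | |inner ℝ p.1 u| ≤ a} := by
      apply isClosed_le <;> fun_prop
    exact this.measurableSet
  -- tail
  have key3 : μ (B \ {p | |inner ℝ p.1 u| ≤ a}) ≤ ENNReal.ofReal (m / 4) * volume L := by
    have h2m := second_moment hn W (fun a b => T (a, b, false)) hT0 (fun a b q => hT _ q) u hu
    rw [← hL] at h2m
    rw [hμ, Measure.prod_apply (hBm.diff hSm)]
    have hpt : ∀ z : EE n, volume (Prod.mk z ⁻¹' (B \ {p | |inner ℝ p.1 u| ≤ a})) ≤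
        L.indicator (fun z => ENNReal.ofReal (32 * m / a ^ 2) *
          ENNReal.ofReal ((inner ℝ z u) ^ 2)) z := by
      intro z
      by_cases hz : z ∈ L
      · rw [indicator_of_mem hz]
        by_cases hza : |inner ℝ z u| ≤ a
        · have : Prod.mk z ⁻¹' (B \ {p : EE n × ℝ | |inner ℝ p.1 u| ≤ a}) = ∅ := by
            ext τ
            simp only [mem_preimage, Set.mem_sdiff, Set.mem_ofPred_eq, mem_empty_iff_false,
              iff_false, not_and, not_not]
            intro _; exact hza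
          rw [this]; simp
        · push Not at hza
          have hsub : Prod.mk z ⁻¹' (B \ {p : EE n × ℝ | |inner ℝ p.1 u| ≤ a}) ⊆
              Icc (-(16 * m)) (16 * m) := by
            intro τ hτ
            have := hτ.1.2
            simp only [Set.mem_ofPred_eq] at this
            exact abs_le.1 this
          refine (measure_mono hsub).trans ?_
          rw [Real.volume_Icc, ← ENNReal.ofReal_mul (by positivity)]
          apply ENNReal.ofReal_le_ofReal
          have h3 : a ^ 2 ≤ (inner ℝ z u) ^ 2 := by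
            rw [← sq_abs (inner ℝ z u)]; gcongr
          have h4 : 32 * m / a ^ 2 * a ^ 2 = 32 * m := by field_simp
          have h5 : 32 * m / a ^ 2 * a ^ 2 ≤ 32 * m / a ^ 2 * (inner ℝ z u) ^ 2 := by gcongr
          linarith
      · have : Prod.mk z ⁻¹' (B \ {p : EE n × ℝ | |inner ℝ p.1 u| ≤ a}) = ∅ := by
          ext τ
          simp only [mem_preimage, Set.mem_sdiff, mem_empty_iff_false,
              iff_false, not_and]
          intro hτ
          exact absurd (BB_fst W u _ hτ.1) hz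
        rw [this]; simp
    calc ∫⁻ z, volume (Prod.mk z ⁻¹' (B \ {p : EE n × ℝ | |inner ℝ p.1 u| ≤ a}))
        ≤ ∫⁻ z, L.indicator (fun z => ENNReal.ofReal (32 * m / a ^ 2) *
          ENNReal.ofReal ((inner ℝ z u) ^ 2)) z := lintegral_mono hpt
      _ = ∫⁻ z in L, ENNReal.ofReal (32 * m / a ^ 2) * ENNReal.ofReal ((inner ℝ z u) ^ 2) := by
          rw [lintegral_indicator hLc.measurableSet]
      _ = ENNReal.ofReal (32 * m / a ^ 2) * ∫⁻ z in L, ENNReal.ofReal ((inner ℝ z u) ^ 2) := by
          rw [lintegral_const_mul _ (by fun_prop)]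
      _ ≤ ENNReal.ofReal (32 * m / a ^ 2) * (ENNReal.ofReal (32 / n) * volume L) := by
          gcongr
      _ = ENNReal.ofReal (m / 4) * volume L := by
          rw [← mul_assoc, ← ENNReal.ofReal_mul (by positivity)]
          congr 2
          rw [ha, div_pow, Real.sq_sqrt hn0.le]
          field_simp
          norm_num
  have hsum : ENNReal.ofReal m * volume L ≤ ENNReal.ofReal (2 * a) * V +
      ENNReal.ofReal (m / 4) * volume L := by
    calc ENNReal.ofReal m * volume L ≤ μ B := key1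
      _ = μ (B ∩ {p | |inner ℝ p.1 u| ≤ a}) + μ (B \ {p | |inner ℝ p.1 u| ≤ a}) :=
          (measure_inter_add_sdiff B hSm).symm
      _ ≤ ENNReal.ofReal (2 * a) * V + ENNReal.ofReal (m / 4) * volume L := by
          gcongr
          exact key2.trans (by gcongr)
  have hLt : volume L ≠ ∞ := hLc.measure_ne_top
  have hfin : ENNReal.ofReal (m / 4) * volume L ≠ ∞ := by finiteness
  have h34 : ENNReal.ofReal (3 / 4 * m) * volume L ≤ ENNReal.ofReal (2 * a) * V := by
    have : ENNReal.ofReal m * volume L =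
        ENNReal.ofReal (3 / 4 * m) * volume L + ENNReal.ofReal (m / 4) * volume L := by
      rw [← add_mul, ← ENNReal.ofReal_add (by positivity) (by positivity)]
      congr 2
      ring
    rw [this] at hsum
    exact (ENNReal.add_le_add_iff_right hfin).1 hsum
  calc ENNReal.ofReal (3 / 512 * (Real.sqrt n * m)) * volume L
      = ENNReal.ofReal ((2 * a)⁻¹) * (ENNReal.ofReal (3 / 4 * m) * volume L) := by
        have e : 3 / 512 * (Real.sqrt n * m) = (2 * a)⁻¹ * (3 / 4 * m) := by
          rw [ha]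
          field_simp
          norm_num
        rw [e, ENNReal.ofReal_mul (by positivity), mul_assoc]
    _ ≤ ENNReal.ofReal ((2 * a)⁻¹) * (ENNReal.ofReal (2 * a) * V) := by gcongr
    _ = V := by
        rw [← mul_assoc, ← ENNReal.ofReal_mul (by positivity), inv_mul_cancel₀ (by positivity)]
        simp


end Pool.Agent.Helper361.SteinerPolar
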